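import Pool.Agent.MP_71ac24_nt.ZD.Basic

namespace Pool.Agent.MP_71ac24_nt.ZD
open Finset Real Filter
open Pool.Agent.MP_71ac24_nt.H14 (ei ei_add norm_ei ei_zero conj_ei norm_ei_sub)
open Pool.Agent.MP_71ac24_nt Pool.Agent.MP_a404e6_nt.W
open Pool.Agent.MP_2033ac_nt.PN (mz ZA_s)

-- helper lemmas of this row: prefix abl_

theorem abl_sum (W : ℕ → ℝ) (a : ℕ → ℂ) (M : ℕ) : ∑ n ∈ Icc 1 M, (W n : ℂ) * a n =
    ∑ N ∈ Icc 1 M, ((W N - W (N + 1) : ℝ) : ℂ) * ∑ n ∈ Icc 1 N, a n +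
      W (M + 1) * ∑ n ∈ Icc 1 M, a n := by
  induction M with
  | zero => simp
  | succ M ih =>
    rw [sum_Icc_succ_top (by omega), ih, sum_Icc_succ_top (by omega) fun N =>
      ((W N - W (N + 1) : ℝ) : ℂ) * ∑ n ∈ Icc 1 N, a n, sum_Icc_succ_top (by omega) a]
    push_cast
    ring

theorem abl_tel (W : ℕ → ℝ) (M : ℕ) : ∑ N ∈ Icc 1 M, (W N - W (N + 1)) = W 1 - W (M + 1) := by
  induction M with
  | zero => simp
  | succ M ih => rw [sum_Icc_succ_top (by omega), ih]; ring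

theorem abl_le (W : ℕ → ℝ) (a : ℕ → ℂ) (M : ℕ) {B : ℝ} (hB : 0 ≤ B) (h0 : W (M + 1) = 0)
    (h1 : W 1 ≤ 1) (hm : ∀ N ∈ Icc 1 M, W (N + 1) ≤ W N)
    (hS : ∀ N ∈ Icc 1 M, W N ≠ W (N + 1) → ‖∑ n ∈ Icc 1 N, a n‖ ≤ B) :
    ‖∑ n ∈ Icc 1 M, (W n : ℂ) * a n‖ ≤ B := by
  rw [abl_sum, h0, Complex.ofReal_zero, zero_mul, add_zero]
  refine (norm_sum_le_of_le _ (n := fun N => (W N - W (N + 1)) * B) fun N hN => ?_).trans ?_
  · rw [norm_mul, Complex.norm_real, Real.norm_of_nonneg (sub_nonneg.2 (hm N hN))]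
    by_cases e : W N = W (N + 1)
    · simp [e]
    · exact mul_le_mul_of_nonneg_left (hS N hN e) (sub_nonneg.2 (hm N hN))
  · rw [← sum_mul, abl_tel, h0, sub_zero]
    exact mul_le_of_le_one_left hB h1

theorem abl_num {L b g r x : ℝ} (b0 : 1 / 2 ≤ b) (b1 : b ≤ 1) (hg : exp L / 2 ≤ g)
    (hr : r ≤ 2 * exp L) (x0 : exp (2 * L) / 2 ≤ x) (x1 : x + 1 ≤ 2 * exp (2 * L)) :
    (x + 1) ^ (1 - b) / g + 2 * r * x ^ (-b) ≤ 12 * exp (L - 2 * L * b) := by
  have e0 := exp_pos (2 * L)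
  have e1 := exp_pos L
  have h1 : (x + 1) ^ (1 - b) ≤ 2 * exp (2 * L * (1 - b)) := by
    refine (rpow_le_rpow (by linarith) x1 (by linarith)).trans ?_
    rw [mul_rpow (by norm_num) e0.le, ← exp_mul]
    refine mul_le_mul_of_nonneg_right ?_ (exp_pos _).le
    simpa using rpow_le_rpow_of_exponent_le (x := 2) one_le_two (show 1 - b ≤ 1 by linarith)
  have h2 : x ^ (-b) ≤ 2 * exp (2 * L * -b) := by
    refine (rpow_le_rpow_of_nonpos (by positivity) x0 (by linarith)).trans ?_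
    rw [div_rpow e0.le (by norm_num), ← exp_mul, div_le_iff₀ (by positivity)]
    have : (2 : ℝ) ^ (-1 : ℝ) ≤ 2 ^ (-b) := rpow_le_rpow_of_exponent_le one_le_two (by linarith)
    rw [rpow_neg_one] at this
    nlinarith [exp_pos (2 * L * -b)]
  have h3 : exp (2 * L * (1 - b)) = exp (L - 2 * L * b) * exp L := by
    rw [← exp_add]; congr 1; ring
  have h4 : exp L * exp (2 * L * -b) = exp (L - 2 * L * b) := by
    rw [← exp_add]; congr 1; ring
  have e2 := exp_pos (L - 2 * L * b)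
  have h5 : (x + 1) ^ (1 - b) / g ≤ 4 * exp (L - 2 * L * b) := by
    rw [div_le_iff₀ (by linarith)]
    nlinarith
  have h6 : r * x ^ (-b) ≤ 2 * exp L * (2 * exp (2 * L * -b)) :=
    mul_le_mul hr h2 (rpow_nonneg (by linarith) _) (by positivity)
  nlinarith

theorem abl_row (hZA : ZA_s) : ABL_s := by
  rintro η L J ρ hη hL hJ hJ' ⟨hz, b0, b1, g0, g1⟩
  have hW : ∀ n : ℕ, n ≠ 0 → zs 0 J n = 1 - smoothTransition (40 * Real.log n + 1 - J) :=
    fun n hn => by
      rw [zs_apply (Nat.zero_le _) hn, smoothTransition.one_of_one_le (by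
        have := Real.log_natCast_nonneg n
        push_cast
        linarith)]
  have hz0 : ∀ n, ⌊exp (2 * L + 1 / 20)⌋₊ < n → zs 0 J n = 0 := fun n hn => by
    have h1 := (Nat.floor_lt (exp_pos _).le).1 hn
    have h2 := (lt_log_iff_exp_lt ((exp_pos _).trans h1)).2 h1
    rw [hW n (by omega), smoothTransition.one_of_one_le (by linarith), sub_self]
  have eL : L + 1 ≤ exp L := add_one_le_exp L
  rw [Dc_eq hz0]
  refine abl_le _ _ _ (by positivity) (hz0 _ (Nat.lt_succ_self _)) ?_ (fun N hN => ?_)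
    fun N hN hne => ?_
  · rw [hW 1 one_ne_zero]
    linarith [smoothTransition.nonneg (40 * Real.log (1 : ℕ) + 1 - J)]
  · have n1 := (mem_Icc.1 hN).1
    rw [hW N (by omega), hW (N + 1) (by omega)]
    have : Real.log N ≤ Real.log (N + 1 : ℕ) :=
      log_le_log (by exact_mod_cast n1) (by exact_mod_cast N.le_succ)
    linarith [smoothTransition.monotone (show 40 * Real.log N + 1 - J ≤
      40 * Real.log (N + 1 : ℕ) + 1 - J by linarith)]
  · obtain ⟨n1, n2⟩ := mem_Icc.1 hN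
    have n0 : (1 : ℝ) ≤ N := by exact_mod_cast n1
    have h1 : exp (2 * L) < N + 1 := by
      by_contra h
      have a : Real.log (N + 1 : ℕ) ≤ 2 * L := by
        rw [log_le_iff_le_exp (by positivity)]
        push_cast
        linarith
      have c : Real.log N ≤ Real.log (N + 1 : ℕ) :=
        log_le_log (by positivity) (by exact_mod_cast N.le_succ)
      refine hne ?_
      rw [hW N (by omega), hW (N + 1) (by omega), smoothTransition.zero_of_nonpos (by linarith),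
        smoothTransition.zero_of_nonpos (by linarith)]
    have h2 : (N : ℝ) ≤ exp (2 * L + 1 / 20) := (Nat.le_floor_iff (exp_pos _).le).1 n2
    have h3 : exp (1 / 20 : ℝ) ≤ 3 / 2 := by
      have := exp_bound_div_one_sub_of_interval (x := 1 / 20) (by norm_num) (by norm_num)
      linarith [show (1 : ℝ) / (1 - 1 / 20) ≤ 3 / 2 by norm_num]
    have h4 : 2 * L + 1 ≤ exp (2 * L) := add_one_le_exp _
    rw [exp_add] at h2
    have h5 := hZA ρ N (by linarith) (by linarith) n1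
    rw [hz, zero_sub, norm_neg] at h5
    have h6 : ‖ρ‖ ≤ 2 * exp L := by
      have := Complex.norm_le_abs_re_add_abs_im ρ
      rw [abs_of_nonneg (by linarith), abs_of_nonneg (by linarith)] at this
      linarith
    refine h5.trans ((abl_num (by linarith) b1 g0 h6 (by linarith) (by nlinarith)).trans ?_)
    have : exp (L - 2 * L * ρ.re) ≤ exp (-(2 * η * L)) := exp_le_exp.2 (by nlinarith)
    linarith [exp_pos (-(2 * η * L))]

end Pool.Agent.MP_71ac24_nt.ZD
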