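import Pool.Agent.MP_71ac24_nt.ZD.Basic
import Pool.Agent.MP_f0209c_nt.Zeta

namespace Pool.Agent.MP_71ac24_nt.ZD
open Finset Real Filter
open Pool.Agent.MP_71ac24_nt.H14 (ei ei_add norm_ei ei_zero conj_ei norm_ei_sub)
open Pool.Agent.MP_71ac24_nt Pool.Agent.MP_a404e6_nt.W
open Pool.Agent.MP_2033ac_nt.PN (mz ZA_s)

-- helper lemmas of this row: prefix cnt_

theorem cnt_ball {u r : ℝ} {z : ℂ} (h : z ∈ Metric.closedBall (⟨4, u⟩ : ℂ) r) :
    |z.re - 4| ≤ r ∧ |z.im - u| ≤ r := by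
  rw [Metric.mem_closedBall, dist_eq_norm] at h
  exact ⟨(Complex.abs_re_le_norm (z - ⟨4, u⟩)).trans h, (Complex.abs_im_le_norm (z - ⟨4, u⟩)).trans h⟩

theorem cnt_an {u r : ℝ} (hu : 5 ≤ u) (hr : r ≤ 38 / 10) :
    AnalyticOnNhd ℂ riemannZeta (Metric.closedBall (⟨4, u⟩ : ℂ) r) := fun z hz => by
  have h1 : z ≠ 1 := fun e => by
    have := (abs_le.1 (cnt_ball hz).2).1
    rw [e, Complex.one_im] at this
    linarith
  exact DifferentiableOn.analyticAt (s := {1}ᶜ)
    (fun z hz => (differentiableAt_riemannZeta hz).differentiableWithinAt)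
    (isOpen_compl_singleton.mem_nhds h1)

theorem cnt_top (a : ℕ∞) : (a.map ((↑) : ℕ → ℤ)).untop₀ = (a.toNat : ℤ) := by
  induction a using ENat.recTopCoe with
  | top => simp
  | coe n => simp

theorem cnt_row : CNT_s := by
  obtain ⟨C0, C1, hC⟩ := Pool.Agent.MP_f0209c_nt.zeta_upper
  obtain ⟨m, m0, hm⟩ := Pool.Agent.MP_f0209c_nt.zeta_lower
  have l0 : 0 < Real.log (38 / 10 / (37 / 10)) := Real.log_pos (by norm_num)
  refine ⟨(|Real.log (4 * C0 / m)| + 1) / Real.log (38 / 10 / (37 / 10)), by positivity,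
    fun u S hu hS => ?_⟩
  have a1 : |(37 / 10 : ℝ)| = 37 / 10 := abs_of_pos (by norm_num)
  have a2 : |(38 / 10 : ℝ)| = 38 / 10 := abs_of_pos (by norm_num)
  have hc : m ≤ ‖riemannZeta ⟨4, u⟩‖ := hm _ rfl
  have J := AnalyticOnNhd.sum_divisor_le (c := ⟨4, u⟩) (r := 37 / 10) (R := 38 / 10)
    (M := 4 * C0 * u) (f := riemannZeta) (by rw [a1]; norm_num) (by rw [a1, a2]; norm_num)
    (by nlinarith) (cnt_an hu a2.le) (norm_pos_iff.1 (m0.trans_le hc)) (by
      intro z hz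
      obtain ⟨b1, b2⟩ := cnt_ball (Metric.sphere_subset_closedBall hz)
      rw [a2, abs_le] at b1 b2
      refine (hC z (by linarith [b1.1]) (by linarith [b2.1])).trans ?_
      have n := Complex.norm_le_abs_re_add_abs_im z
      rw [abs_of_pos (by linarith [b1.1] : 0 < z.re), abs_of_pos (by linarith [b2.1] : 0 < z.im)] at n
      have : ‖z‖ ≤ 4 * u := by linarith [b1.2, b2.2]
      nlinarith)
  have an := cnt_an (r := |(37 / 10 : ℝ)|) hu (by rw [a1]; norm_num)
  set D := MeromorphicOn.divisor riemannZeta (Metric.closedBall (⟨4, u⟩ : ℂ) |(37 / 10 : ℝ)|) with hD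
  have fin : (Function.support fun z => D z).Finite := D.finiteSupport (isCompact_closedBall _ _)
  have e1 : ∑ ρ ∈ S, od ρ = ((∑ ρ ∈ S, D ρ : ℤ) : ℝ) := by
    rw [Int.cast_sum]
    refine Finset.sum_congr rfl fun ρ h => ?_
    obtain ⟨s1, s2, s3⟩ := hS ρ h
    have mem : ρ ∈ Metric.closedBall (⟨4, u⟩ : ℂ) |(37 / 10 : ℝ)| := by
      rw [Metric.mem_closedBall, dist_eq_norm, ← sq_le_sq₀ (norm_nonneg _) (abs_nonneg _), a1,
        Complex.sq_norm, Complex.normSq_apply]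
      have s4 := abs_le.1 s3
      simp only [Complex.sub_re, Complex.sub_im]
      nlinarith [s4.1, s4.2]
    rw [hD, MeromorphicOn.AnalyticOnNhd.divisor_apply an mem, cnt_top]
    simp [od, analyticOrderNatAt]
  have e2 : ∑ ρ ∈ S, D ρ ≤ ∑ᶠ z, D z := by
    classical
    rw [finsum_eq_sum_of_support_subset (s := S ∪ fin.toFinset) _ (by
      intro z hz
      simp only [Finset.coe_union, Set.Finite.coe_toFinset]
      exact Or.inr hz)]
    exact Finset.sum_le_sum_of_subset_of_nonneg Finset.subset_union_left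
      fun z _ _ => MeromorphicOn.AnalyticOnNhd.divisor_nonneg an z
  have e3 : ((∑ ρ ∈ S, D ρ : ℤ) : ℝ) ≤ ((∑ᶠ z, D z : ℤ) : ℝ) := by exact_mod_cast e2
  rw [e1, div_mul_eq_mul_div]
  refine e3.trans (J.trans (div_le_div_of_nonneg_right ?_ l0.le))
  have lu : 1 ≤ Real.log u := by
    rw [Real.le_log_iff_exp_le (by linarith)]
    linarith [Real.exp_one_lt_d9]
  have e4 : Real.log (4 * C0 * u / ‖riemannZeta ⟨4, u⟩‖) ≤ Real.log (4 * C0 / m * u) := by
    refine Real.log_le_log (div_pos (by nlinarith) (m0.trans_le hc)) ?_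
    rw [div_mul_eq_mul_div]
    exact div_le_div_of_nonneg_left (by nlinarith) m0 hc
  rw [Real.log_mul (by positivity) (by linarith)] at e4
  have := le_abs_self (Real.log (4 * C0 / m))
  have := abs_nonneg (Real.log (4 * C0 / m))
  nlinarith

end Pool.Agent.MP_71ac24_nt.ZD
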