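import Pool.Agent.MP_71ac24_nt.ZD.Basic

namespace Pool.Agent.MP_71ac24_nt.ZD
open Finset Real Filter
open Pool.Agent.MP_71ac24_nt.H14 (ei ei_add norm_ei ei_zero conj_ei norm_ei_sub)
open Pool.Agent.MP_71ac24_nt Pool.Agent.MP_a404e6_nt.W
open Pool.Agent.MP_2033ac_nt.PN (mz ZA_s)

-- helper lemmas of this row: prefix cov_

theorem cov_row (hTAY : TAY_s) : COV_s := by
  classical
  intro F Q J N U K V σ R hB hS hK hV hσ hR hN h
  refine ⟨((range J ×ˢ range N).filter fun p => Q p.1).biUnion fun p =>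
    ((Icc (-(U : ℤ)) U).filter fun t : ℤ => V * exp (σ * yj p.1) / (4 * exp (2 * K)) ≤
      ‖Dp (tw (F p.1) (yj p.1) K p.2) t‖).image fun t => -t, ?_, fun ρ j hj hQ h1 h2 h3 h4 => ?_⟩
  · refine (Nat.cast_le.2 card_biUnion_le).trans ?_
    rw [Nat.cast_sum]
    refine (sum_le_card_nsmul _ _ R fun p hp => ?_).trans ?_
    · exact (Nat.cast_le.2 card_image_le).trans ((h _ (mem_filter.1 hp).2).2.2 p.2)
    · rw [nsmul_eq_mul]
      refine mul_le_mul_of_nonneg_right ?_ hR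
      have := card_filter_le (range J ×ˢ range N) fun p => Q p.1
      rw [card_product, card_range, card_range] at this
      exact_mod_cast this
  · obtain ⟨y0, g, -⟩ := h j hQ
    obtain ⟨k, hk, g'⟩ := hTAY (F j) (yj j) K V N ρ (hB j) (hS j) y0 hK hV (hσ.trans h1) h2 hN g h4
    refine mem_biUnion.2 ⟨(j, k), mem_filter.2 ⟨mem_product.2 ⟨mem_range.2 hj, mem_range.2 hk⟩, hQ⟩,
      mem_image.2 ⟨-⌊ρ.im⌋, mem_filter.2 ⟨?_, le_trans ?_ g'⟩, neg_neg _⟩⟩
    · rw [mem_Icc] at h3 ⊢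
      omega
    · gcongr

end Pool.Agent.MP_71ac24_nt.ZD
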