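import Pool.Agent.MP_71ac24_nt.ZD.Basic

namespace Pool.Agent.MP_71ac24_nt.ZD
open Finset Real Filter
open Pool.Agent.MP_71ac24_nt.H14 (ei ei_add norm_ei ei_zero conj_ei norm_ei_sub)
open Pool.Agent.MP_71ac24_nt Pool.Agent.MP_a404e6_nt.W
open Pool.Agent.MP_2033ac_nt.PN (mz ZA_s)

-- helper lemmas of this row: prefix det_

theorem det_zs (a b : ℕ) : Sp (zs a b) 0 b := fun n hn => by
  rw [zs, af_sum] at hn
  obtain ⟨j, hj, h0⟩ := exists_ne_zero_of_sum_ne_zero hn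
  have h1 := (pc_sp ze (yj j) n h0).2
  have h2 : (j : ℝ) + 1 ≤ b := by exact_mod_cast (mem_Ico.1 hj).2
  have h3 : (0 : ℝ) ≤ j := Nat.cast_nonneg _
  refine ⟨Real.log_natCast_nonneg n, ?_⟩
  rw [yj] at h1
  linarith

theorem det_msp (x : ℝ) : Sp (mz ⌊exp x⌋₊) 0 x := fun n hn => by
  have n0 : n ≠ 0 := fun e => hn (by rw [e]; exact ArithmeticFunction.map_zero)
  have h : n ≤ ⌊exp x⌋₊ := by
    by_contra g
    exact hn (if_neg g)
  refine ⟨Real.log_natCast_nonneg n, ?_⟩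
  rw [Real.log_le_iff_le_exp (by exact_mod_cast Nat.pos_of_ne_zero n0)]
  exact (Nat.cast_le.2 h).trans (Nat.floor_le (exp_pos x).le)

theorem det_mbd (z : ℕ) : Bd (mz z) 1 := fun n => by
  change |if n ≤ z then (ArithmeticFunction.moebius n : ℝ) else 0| ≤ 1
  split_ifs
  · exact_mod_cast ArithmeticFunction.abs_moebius_le_one
  · simp

theorem det_one : Sp 1 0 0 := fun n hn => by
  have h : n = 1 := by
    by_contra g
    exact hn (ArithmeticFunction.one_apply_ne g)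
  simp [h]

theorem det_pig (I : Finset ℕ) (g : ℕ → ℂ) {c N : ℝ} (hc : 0 ≤ c) (hN : (#I : ℝ) ≤ N)
    (h : N * c < ‖∑ j ∈ I, g j‖) : ∃ j ∈ I, c < ‖g j‖ := by
  by_contra k
  have k' : ∀ j ∈ I, ‖g j‖ ≤ c := fun j hj => not_lt.1 fun e => k ⟨j, hj, e⟩
  have := norm_sum_le_of_le I (n := fun _ => c) k'
  rw [sum_const, nsmul_eq_mul] at this
  linarith [mul_le_mul_of_nonneg_right hN hc]

theorem det_part {f : AF} {a b : ℝ} (h : Sp f a b) {J : ℕ} (hJ : 40 * b + 1 ≤ J) (s : ℂ) :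
    Dc f s = ∑ j ∈ range J, Dc (pc f (yj j)) s := by
  rw [← Dc_sum (range J) (fun j _ => pc_sp f (yj j)) s]
  congr 1
  ext n
  by_cases g : f n = 0
  · rw [g, af_sum]
    exact (sum_eq_zero fun j _ => by rw [pc_apply, g, zero_mul]).symm
  · exact part f hJ n (h n g).2

theorem det_ne {f : AF} {s : ℂ} (h : 0 < ‖Dc f s‖) : ∃ n, f n ≠ 0 := by
  by_contra k
  have k' : ∀ n, f n = 0 := fun n => not_not.1 fun e => k ⟨n, e⟩
  simp [Dc, k'] at h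

theorem det_row (hABL : ABL_s) (hMOL : MOL_s) : DET_s := by
  intro δ η e hδ hη hδ' he
  filter_upwards [hMOL δ (e / 2) hδ hδ' (by linarith), ev_lin 301 δ hδ 1,
    ev_lin 304 (e / 2) (by linarith) 1, eventually_ge_atTop (1 : ℝ)] with L hM h1 h2 hL
  obtain ⟨hB, hS⟩ := hM
  rw [pow_one] at h1 h2
  have p1 := exp_pos (-(e / 2 * L))
  have q1 : exp (-(e / 2 * L)) * exp (e / 2 * L) = 1 := by rw [← exp_add]; simp
  have p2 := exp_pos (-(δ * L))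
  have q2 : exp (-(δ * L)) * exp (δ * L) = 1 := by rw [← exp_add]; simp
  have hSE : Sp (exp (-(e / 2 * L)) • E0 δ L) (δ * L) ((1 / 2 + δ) * L + 1 / 20) := fun n hn =>
    hS n (right_ne_zero_of_mul hn)
  have c1 := Nat.le_ceil (20 * L)
  have c2 := Nat.le_ceil (80 * L)
  have c3 := Nat.le_ceil (100 * L)
  have d2 := Nat.ceil_lt_add_one (by linarith : 0 ≤ 80 * L)
  have d3 := Nat.ceil_lt_add_one (by linarith : 0 ≤ 100 * L)
  have hJ : ⌈20 * L⌉₊ + 1 ≤ ⌈80 * L⌉₊ + 1 := Nat.succ_le_succ (Nat.ceil_mono (by linarith))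
  refine ⟨exp (-(e / 2 * L)) • E0 δ L, fun n => ?_, fun ρ hρ => ?_⟩
  · rw [ArithmeticFunction.smul_map, smul_eq_mul, abs_mul, abs_of_pos p1]
    exact (mul_le_mul_of_nonneg_left (hB n) p1.le).trans q1.le
  have hre : 0 ≤ ρ.re := by linarith [hρ.2.1]
  have a1 := hABL η L (⌈80 * L⌉₊ + 1) ρ (by linarith) hL (by push_cast; linarith)
    (by push_cast; linarith) hρ
  have a2 := Dc_le (det_msp (δ * L)) (det_mbd _) hre
  rw [one_mul] at a2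
  have a3 : Dc (zs 0 (⌈80 * L⌉₊ + 1)) ρ =
      Dc (zs 0 (⌈20 * L⌉₊ + 1)) ρ + Dc (zs (⌈20 * L⌉₊ + 1) (⌈80 * L⌉₊ + 1)) ρ := by
    rw [← Dc_add (det_zs _ _) (det_zs _ _), zs, zs, zs, sum_Ico_consecutive _ (Nat.zero_le _) hJ]
  have a4 : Dc (mz ⌊exp (δ * L)⌋₊) ρ * Dc (zs 0 (⌈20 * L⌉₊ + 1)) ρ = 1 + Dc (E0 δ L) ρ := by
    rw [← Dc_mul (det_msp _) (det_zs _ _), ← Dc_one ρ, ← Dc_add det_one hS, E0, add_sub_cancel]
  have a5 : exp (-(2 * η * L)) ≤ exp (-(δ * L)) * exp (-(δ * L)) := by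
    rw [← exp_add]
    exact exp_le_exp.2 (by nlinarith)
  by_cases g : 1 / 3 ≤ ‖Dc (E0 δ L) ρ‖
  · have b1 : 101 * L * exp (-(e * L)) <
        ‖∑ j ∈ range ⌈100 * L⌉₊, Dc (pc (exp (-(e / 2 * L)) • E0 δ L) (yj j)) ρ‖ := by
      rw [← det_part hSE (by nlinarith), Dc_smul, norm_mul, Complex.norm_real, Real.norm_eq_abs,
        abs_of_pos p1, show exp (-(e * L)) = exp (-(e / 2 * L)) * exp (-(e / 2 * L)) by
          rw [← exp_add]; congr 1; ring]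
      have : 101 * L * exp (-(e / 2 * L)) < 1 / 3 := by nlinarith
      nlinarith
    obtain ⟨j, hj, b2⟩ := det_pig _ _ (exp_pos _).le (by rw [card_range]; linarith) b1
    obtain ⟨n, hn⟩ := det_ne ((exp_pos _).trans b2)
    obtain ⟨b3, b4⟩ := pc_sp _ _ n hn
    obtain ⟨b5, b6⟩ := hSE n (left_ne_zero_of_mul hn)
    exact ⟨j, mem_range.1 hj, .inl ⟨by linarith, by linarith, b2.le⟩⟩
  · have b0 : (1 : ℂ) = Dc (mz ⌊exp (δ * L)⌋₊) ρ * Dc (zs 0 (⌈80 * L⌉₊ + 1)) ρ -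
        Dc (mz ⌊exp (δ * L)⌋₊) ρ * Dc (zs (⌈20 * L⌉₊ + 1) (⌈80 * L⌉₊ + 1)) ρ - Dc (E0 δ L) ρ := by
      rw [a3, mul_add, a4]; ring
    have b1 : (1 : ℝ) ≤ exp (δ * L) * (20 * exp (-(2 * η * L))) +
        exp (δ * L) * ‖Dc (zs (⌈20 * L⌉₊ + 1) (⌈80 * L⌉₊ + 1)) ρ‖ + ‖Dc (E0 δ L) ρ‖ := by
      refine (norm_one (α := ℂ)).ge.trans ((congrArg norm b0).le.trans ((norm_sub_le _ _).trans
        (add_le_add_left ((norm_sub_le _ _).trans (add_le_add ?_ ?_)) _)))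
      · rw [norm_mul]
        exact mul_le_mul a2 a1 (norm_nonneg _) (exp_pos _).le
      · rw [norm_mul]
        exact mul_le_mul_of_nonneg_right a2 (norm_nonneg _)
    have b2 : 301 * L * exp (-(δ * L)) ≤ 1 := by nlinarith
    have b3 : exp (δ * L) * exp (-(2 * η * L)) ≤ exp (-(δ * L)) := by
      refine (mul_le_mul_of_nonneg_left a5 (exp_pos _).le).trans_eq ?_
      rw [← mul_assoc, mul_comm (exp (δ * L)), q2, one_mul]
    have b4 : 1 / 3 ≤ exp (δ * L) * ‖Dc (zs (⌈20 * L⌉₊ + 1) (⌈80 * L⌉₊ + 1)) ρ‖ := by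
      have := not_le.1 g
      nlinarith
    have b5 : exp (-(δ * L)) * (1 / 3) ≤ ‖Dc (zs (⌈20 * L⌉₊ + 1) (⌈80 * L⌉₊ + 1)) ρ‖ := by
      refine (mul_le_mul_of_nonneg_left b4 p2.le).trans_eq ?_
      rw [← mul_assoc, q2, one_mul]
    have b6 : 100 * L * exp (-(2 * δ * L)) <
        ‖∑ j ∈ Ico (⌈20 * L⌉₊ + 1) (⌈80 * L⌉₊ + 1), Dc (pc ze (yj j)) ρ‖ := by
      rw [← Dc_sum _ (fun j _ => pc_sp ze (yj j)) ρ,
        show exp (-(2 * δ * L)) = exp (-(δ * L)) * exp (-(δ * L)) by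
          rw [← exp_add]; congr 1; ring]
      refine lt_of_lt_of_le ?_ b5
      have : 100 * L * exp (-(δ * L)) < 1 / 3 := by nlinarith
      nlinarith
    obtain ⟨j, hj, b7⟩ := det_pig _ _ (exp_pos _).le (by
      rw [Nat.card_Ico]
      have : ((⌈80 * L⌉₊ + 1 - (⌈20 * L⌉₊ + 1) : ℕ) : ℝ) ≤ ⌈80 * L⌉₊ := by
        exact_mod_cast (by omega : ⌈80 * L⌉₊ + 1 - (⌈20 * L⌉₊ + 1) ≤ ⌈80 * L⌉₊)
      linarith) b6
    obtain ⟨j1, j2⟩ := mem_Ico.1 hj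
    have j3 : (⌈20 * L⌉₊ : ℝ) + 1 ≤ j := by exact_mod_cast j1
    have j4 : (j : ℝ) ≤ ⌈80 * L⌉₊ := by exact_mod_cast Nat.lt_succ_iff.1 j2
    refine ⟨j, ?_, .inr ⟨by rw [yj]; linarith, by rw [yj]; linarith, b7.le⟩⟩
    exact_mod_cast (by linarith : (j : ℝ) < ⌈100 * L⌉₊)

end Pool.Agent.MP_71ac24_nt.ZD
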