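import Pool.Agent.MP_71ac24_nt.ZD.Basic

/-! Zero density: the integer parts of the ordinates of the zeros of a dyadic block. -/

namespace Pool.Agent.MP_71ac24_nt.ZD
open Finset Real Filter
open Pool.Agent.MP_71ac24_nt.H14 (ei ei_add norm_ei ei_zero conj_ei norm_ei_sub)
open Pool.Agent.MP_71ac24_nt Pool.Agent.MP_a404e6_nt.W
open Pool.Agent.MP_2033ac_nt.PN (mz ZA_s)

theorem int_thr {V K a b : ℝ} (h : 4 * exp (2 * K) ≤ exp b) (hV : V = exp (-b)) :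
    exp (a - 2 * b) ≤ V * exp a / (4 * exp (2 * K)) := by
  rw [le_div_iff₀ (by positivity), hV, ← exp_add]
  refine (mul_le_mul_of_nonneg_left h (exp_pos _).le).trans (le_of_eq ?_)
  rw [← exp_add]
  congr 1
  ring

theorem int_pow {L y b : ℝ} (hL : 1 ≤ L) (hy : y ≤ 2 * L + 1) (hb : b ≤ L) :
    4 * exp (y + 1 / 20) ≤ exp (-b) * 10 ^ ⌈5 * L⌉₊ := by
  have h2 : exp 2 ≤ 10 := by
    rw [show (2 : ℝ) = 1 + 1 by norm_num, exp_add]
    nlinarith [exp_one_lt_d9, exp_pos (1 : ℝ)]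
  have h3 : exp (10 * L) ≤ 10 ^ ⌈5 * L⌉₊ := by
    refine le_trans ?_ (pow_le_pow_left₀ (exp_pos _).le h2 _)
    rw [← exp_nat_mul]
    exact exp_le_exp.2 (by linarith [Nat.le_ceil (5 * L)])
  have h4 : (4 : ℝ) ≤ exp 3 := by linarith [add_one_le_exp (3 : ℝ)]
  refine le_trans ?_ (mul_le_mul_of_nonneg_left h3 (exp_pos _).le)
  refine (mul_le_mul_of_nonneg_right h4 (exp_pos _).le).trans ?_
  rw [← exp_add, ← exp_add]
  exact exp_le_exp.2 (by linarith)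

theorem int_row (hDET : DET_s) (hCOV : COV_s) (hZPM : ZPM_s) (hLVZ : LVZ_s) : INT_s := by
  intro A ⟨hA, hLVA⟩ ε η hε hη
  obtain ⟨C, K, -, hK, hZ⟩ := hZPM
  obtain ⟨w, w0, w1, w2⟩ : ∃ w : ℝ, 0 < w ∧ w ≤ ε ∧ w ≤ 1 :=
    ⟨min ε 1, lt_min hε one_pos, min_le_left _ _, min_le_right _ _⟩
  obtain ⟨d, d0, d1, d2⟩ : ∃ d : ℝ, 0 < d ∧ d ≤ η ∧ d ≤ w / 100 :=
    ⟨min η (w / 100), lt_min hη (by positivity), min_le_left _ _, min_le_right _ _⟩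
  obtain ⟨e, e0, e1, hA1⟩ := hLVA (d / 2) (w / 2) (by positivity) (by positivity) (by linarith)
  filter_upwards [hA1, hDET d η (e / 2) d0 d1 (by linarith) (by positivity),
    hLVZ C (4 * d) (by positivity), mv_ev (4 * exp (2 * K)) (half_pos e0),
    mv_ev (4 * exp (2 * K)) (by positivity : 0 < 2 * d), bx_ev d0 2, bx_ev w0 10,
    ev_lin 1212 (w / 2) (half_pos w0) 2, eventually_ge_atTop 1] with L a1 ⟨E, hE, a2⟩ a3 a4 a5 a6
    a7 a8 hL σ s1 s2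
  have s0 : 1 / 2 ≤ σ := by linarith
  have hN : 1 ≤ ⌈5 * L⌉₊ := Nat.ceil_pos.2 (by linarith)
  have g1 := mul_le_mul_of_nonneg_right d2 (by linarith : 0 ≤ L)
  have g2 := mul_le_mul_of_nonneg_right w2 (by linarith : 0 ≤ L)
  have g3 := mul_le_mul_of_nonneg_right e1 (by linarith : 0 ≤ L)
  have g4 := mul_le_mul_of_nonneg_right w1 (by linarith : 0 ≤ L)
  have g5 := mul_le_mul_of_nonneg_right
    (mul_le_mul_of_nonneg_right (hA σ s0 s2) (sub_nonneg.2 s2)) (by linarith : 0 ≤ L)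
  obtain ⟨B1, b1, c1⟩ := hCOV (fun j => pc E (yj j))
    (fun j => d * L - 1 ≤ yj j ∧ yj j ≤ (1 / 2 + d) * L + 1) ⌈100 * L⌉₊ ⌈5 * L⌉₊ ⌊exp L⌋₊ K
    (exp (-(e / 2 * L))) σ (exp ((A σ * (1 - σ) + w / 2) * L)) (fun j => pc_bd hE _)
    (fun j => pc_sp _ _) hK (exp_pos _) (by linarith) (exp_pos _).le hN fun j ⟨q1, q2⟩ =>
      ⟨by linarith, int_pow hL (by linarith) (by linarith), fun k =>
        (cnt_anti _ _ (int_thr a4 rfl)).trans (by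
          rw [show 2 * (e / 2 * L) = e * L by ring]
          exact a1 _ _ σ (tw_bd (pc_bd hE _) (pc_sp _ _) hK k) (tw_sp (pc_sp _ _) _ _ _)
            (by linarith) (by linarith) s0 s2)⟩
  obtain ⟨B2, b2, c2⟩ := hCOV (fun j => pc ze (yj j))
    (fun j => L / 2 ≤ yj j ∧ yj j ≤ 2 * L + 1) ⌈100 * L⌉₊ ⌈5 * L⌉₊ ⌊exp L⌋₊ K
    (exp (-(2 * d * L))) σ (exp ((A σ * (1 - σ) + w / 2) * L)) (fun j => pc_bd ze_bd _)
    (fun j => pc_sp _ _) hK (exp_pos _) (by linarith) (exp_pos _).le hN fun j ⟨q1, q2⟩ =>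
      ⟨by linarith, int_pow hL q2 (by linarith), fun k =>
        (cnt_anti _ _ (int_thr a5 rfl)).trans (by
          rw [show 2 * (2 * d * L) = 4 * d * L by ring]
          exact (a3 _ _ σ (hZ _ k) (tw_sp (pc_sp _ _) _ _ _) q1 q2 s0 s2).trans
            (exp_le_exp.2 (by linarith)))⟩
  refine ⟨B1 ∪ B2, ?_, fun ρ ⟨z0, z1, z2, z3, z4⟩ => ?_⟩
  · have h1 : (⌈100 * L⌉₊ : ℝ) ≤ 101 * L := by
      linarith [Nat.ceil_lt_add_one (by linarith : 0 ≤ 100 * L)]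
    have h2 : (⌈5 * L⌉₊ : ℝ) ≤ 6 * L := by
      linarith [Nat.ceil_lt_add_one (by linarith : 0 ≤ 5 * L)]
    have h3 := mul_le_mul_of_nonneg_right (mul_le_mul h1 h2 (Nat.cast_nonneg _) (by linarith))
      (exp_pos ((A σ * (1 - σ) + w / 2) * L)).le
    have h4 := mul_le_mul_of_nonneg_right a8 (exp_pos ((A σ * (1 - σ) + w / 2) * L)).le
    have h5 : (#(B1 ∪ B2) : ℝ) ≤ #B1 + #B2 := by exact_mod_cast card_union_le _ _
    rw [← exp_add] at h4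
    refine le_trans ?_ (h4.trans (exp_le_exp.2 (by linarith)))
    linarith
  · have hm : ⌊ρ.im⌋ ∈ Icc (-(⌊exp L⌋₊ : ℤ)) ⌊exp L⌋₊ := by
      have p0 : 0 ≤ ⌊ρ.im⌋ := Int.floor_nonneg.2 (by linarith [exp_pos L])
      refine mem_Icc.2 ⟨by omega, ?_⟩
      rw [Int.natCast_floor_eq_floor (exp_pos L).le]
      exact Int.floor_mono z4
    obtain ⟨j, hj, ⟨q1, q2, q3⟩ | ⟨q1, q2, q3⟩⟩ := a2 ρ ⟨z0, s1.trans z1, z2, z3, z4⟩
    · exact mem_union_left _ (c1 ρ j hj ⟨q1, q2⟩ z1 z2 hm q3)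
    · exact mem_union_right _ (c2 ρ j hj ⟨q1, q2⟩ z1 z2 hm q3)

end Pool.Agent.MP_71ac24_nt.ZD
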