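import Pool.Agent.MP_71ac24_nt.ZD.Basic

namespace Pool.Agent.MP_71ac24_nt.ZD
open Finset Real Filter
open Pool.Agent.MP_71ac24_nt.H14 (ei ei_add norm_ei ei_zero conj_ei norm_ei_sub)
open Pool.Agent.MP_71ac24_nt Pool.Agent.MP_a404e6_nt.W
open Pool.Agent.MP_2033ac_nt.PN (mz ZA_s)

-- helper lemmas of this row: prefix lp_

theorem lp_row : LP_s := by
  intro t P m σ r a e he ht s1 s2 hA h1 h2 ha hmv hes
  have P0 : 0 ≤ P := by linarith
  have a1 := mul_nonneg (sub_nonneg.2 s2) (show 0 ≤ P - 2 * m by linarith)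
  rcases le_total t m with h | h
  · rw [max_eq_right h] at hmv; nlinarith
  rw [max_eq_left h] at hmv
  have m3 : 0 ≤ 3 * m - P := by linarith
  have key : 3 * t ≤ P * (2 - σ) ∨
      (11 / 16 ≤ σ ∧ 24 * t ≤ P * (5 + 8 * σ) ∧ 6 * t ≤ P * (2 + σ)) := by
    rcases min_choice (3 / (2 - σ)) (max (24 / (5 + 8 * σ)) (6 / (2 + σ))) with g | g
    · left
      rw [AA, g, div_mul_eq_mul_div, div_le_iff₀ (by linarith)] at hA
      exact hA
    · rw [AA, g] at hA
      have b1 := (mul_le_mul_of_nonneg_right (le_max_left _ _) ht).trans hA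
      have b2 := (mul_le_mul_of_nonneg_right (le_max_right _ _) ht).trans hA
      rw [div_mul_eq_mul_div, div_le_iff₀ (by linarith)] at b1 b2
      rcases le_total σ (11 / 16) with q | q
      · left
        nlinarith [mul_nonneg P0 (sub_nonneg.2 q)]
      · exact Or.inr ⟨q, b1, b2⟩
  rcases key with k | ⟨q, b1, b2⟩
  · nlinarith [mul_nonneg (show 0 ≤ 2 * σ - 1 by linarith) m3]
  rcases hes with k | k | k | k
  · nlinarith
  · rcases le_total (29 / 40) σ with p | p
    · rcases le_total (3 / 4) σ with p' | p'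
      · nlinarith [mul_nonneg (sub_nonneg.2 p') m3, mul_nonneg P0 (sub_nonneg.2 p')]
      · nlinarith [mul_nonneg (sub_nonneg.2 p') (show 0 ≤ P - 2 * m by linarith),
          mul_nonneg P0 (sub_nonneg.2 p)]
    · have c1 : 0 ≤ 3 - 4 * σ := by linarith
      have c2 : 0 ≤ 2 * σ - 1 := by linarith
      rcases le_total σ (5 / 7) with p' | p'
      · rcases le_total (8 * m) (3 * P) with u | u
        · nlinarith [mul_nonneg c1 (sub_nonneg.2 u), mul_nonneg P0 (sub_nonneg.2 q)]
        · nlinarith [mul_nonneg c2 (sub_nonneg.2 u), mul_nonneg P0 (sub_nonneg.2 p')]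
      · rcases le_total (50 * m) (21 * P) with u | u
        · nlinarith [mul_nonneg c1 (sub_nonneg.2 u), mul_nonneg P0 (sub_nonneg.2 p')]
        · nlinarith [mul_nonneg c2 (sub_nonneg.2 u), mul_nonneg P0 (sub_nonneg.2 p)]
  · nlinarith [mul_nonneg (show 0 ≤ 32 * σ - 19 by linarith) m3]
  · nlinarith [mul_nonneg (show 0 ≤ 7 * σ - 4 by linarith) m3]

end Pool.Agent.MP_71ac24_nt.ZD
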