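import Pool.Agent.MP_71ac24_nt.ZD.Basic
import Pool.Agent.MP_2033ac_nt.PN.RLVA

namespace Pool.Agent.MP_71ac24_nt.ZD
open Finset Real Filter
open Pool.Agent.MP_71ac24_nt.H14 (ei ei_add norm_ei ei_zero conj_ei norm_ei_sub)
open Pool.Agent.MP_71ac24_nt Pool.Agent.MP_a404e6_nt.W
open Pool.Agent.MP_2033ac_nt.PN (mz ZA_s)

-- helper lemmas of this row: prefix lva_

theorem lva_row (hLP : LP_s) : LVA_s := by
  intro κ ε hκ hε hε1
  obtain ⟨K0, hK0⟩ : ∃ K0 : ℕ, 2 / κ ≤ K0 := ⟨_, Nat.le_ceil _⟩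
  obtain ⟨e, he⟩ : ∃ e : ℝ, e = ε / (50 * (K0 + 1)) := ⟨_, rfl⟩
  have K00 : (0 : ℝ) ≤ K0 := Nat.cast_nonneg _
  have e0 : 0 < e := by rw [he]; positivity
  have eK : (K0 + 1) * e = ε / 50 := by rw [he]; field_simp
  refine ⟨e, e0, by nlinarith, ?_⟩
  obtain ⟨C, -, hC⟩ := bd_ev K0 (ε / 12000) (by positivity)
  filter_upwards [(tendsto_id.const_mul_atTop (show (0 : ℝ) < 3 by norm_num)).eventually
    (genP (ε / 300) (by positivity)), mv_ev C (show 0 < ε / 4000 by positivity),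
    bx_ev (show 0 < ε / 4 by positivity) (K0 : ℝ), eventually_gt_atTop (0 : ℝ)]
    with L hG e1 e2 hL f y σ hB hS h1 h2 s1 s2
  simp only [id] at hG
  have y0 : 0 < y := lt_of_lt_of_le (mul_pos hκ hL) h1
  have A1 := mul_le_mul_of_nonneg_right (AA_ge s1 s2) hL.le
  have A2 := mul_le_mul_of_nonneg_right (AA_le s1 s2) hL.le
  have εL : 0 < ε * L := mul_pos hε hL
  have εL1 : ε * L ≤ L := by nlinarith
  obtain ⟨k, k1, k2⟩ := MP_2033ac_nt.PN.lva_k (P := (AA σ + ε) * L) y0 (by linarith)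
  have k0 : (0 : ℝ) ≤ k := Nat.cast_nonneg k
  have k3 : (k : ℝ) ≤ K0 := by
    refine le_trans ?_ hK0
    rw [le_div_iff₀ hκ]
    have := mul_le_mul_of_nonneg_left h1 k0
    nlinarith
  have hs : Sp (∏ _i ∈ range k, f) (k * y) (k * y + k / 20) := by
    have := Sp.prod (range k) (f := fun _ => f) (a := fun _ => y) (b := fun _ => y + 1 / 20)
      fun _ _ => hS
    simp only [sum_const, card_range, nsmul_eq_mul] at this
    exact this.mono le_rfl (le_of_eq (by ring))
  have m0 : 0 ≤ k * y + k / 20 := by positivity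
  have mL : k * y + k / 20 ≤ 3 * L := by linarith
  have hb : Bd (∏ _i ∈ range k, f) (exp (ε / 300 / 20 * (3 * L))) := fun n => by
    refine (hC ℕ (range k) (fun _ => f) _ _ (by rw [card_range]; exact_mod_cast k3) m0
      (fun _ _ => hB) hs n).trans ?_
    rw [show ε / 300 / 20 * (3 * L) = ε / 4000 * L + ε / 12000 * (3 * L) by ring, exp_add]
    exact mul_le_mul e1 (exp_le_exp.2 (mul_le_mul_of_nonneg_left mL (by positivity)))
      (exp_pos _).le (exp_pos _).le
  have hc1 := MP_2033ac_nt.PN.lva_cnt ⌊exp L⌋₊ k (fun t => ‖Dp f t‖)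
    (fun t => ‖Dp (∏ _i ∈ range k, f) t‖) (fun t => by
    rw [Dp_prod (range k) (f := fun _ => f) (a := fun _ => y) (b := fun _ => y + 1 / 20)
      fun _ _ => hS, prod_const, card_range, norm_pow]) (σ * y - e * L)
  obtain ⟨N, hN⟩ : ∃ N : ℕ, cnt ⌊exp L⌋₊ (fun t => ‖Dp f t‖) (exp (σ * y - e * L)) = N :=
    ⟨_, rfl⟩
  rw [hN] at hc1 ⊢
  rcases Nat.eq_zero_or_pos N with rfl | N0
  · exact_mod_cast (exp_pos _).le
  have N1 : (1 : ℝ) ≤ N := by exact_mod_cast N0
  obtain ⟨-, g1, g2⟩ := hG _ _ _ L ⌊exp L⌋₊ m0 mL (Nat.floor_le (exp_pos L).le) hb hs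
    (Real.log N) (k * (σ * y - e * L)) (Real.log_nonneg N1)
    (by rw [exp_log (by linarith)]; linarith)
  have g3 := g1 1 le_rfl (by norm_num)
  simp only [Nat.cast_one, one_mul, mul_one] at g3
  have g4 : max L (k * y + k / 20) ≤ max L (k * y) + k / 20 :=
    max_le (by linarith [le_max_left L (k * y)]) (by linarith [le_max_right L (k * y)])
  have g5 : 0 ≤ k * e * L := by positivity
  have g6 : k * e * L ≤ ε / 50 * L :=
    mul_le_mul_of_nonneg_right (by nlinarith) hL.le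
  have key := hLP L ((AA σ + ε) * L) (k * y) σ (Real.log N) (k * (σ * y - e * L))
    (ε * L / 100 + 3 * k / 20 + k * e * L) (by positivity) hL.le s1 s2 (by linarith) k1 k2
    (by linarith) (by linarith) (g2.imp (fun h => by linarith) fun g => g.imp (fun h => by linarith)
      fun g => g.imp (fun h => by linarith) fun h => by linarith)
  have g7 := mul_le_mul_of_nonneg_right s1 εL.le
  rw [← exp_log (show (0 : ℝ) < N by linarith)]
  exact exp_le_exp.2 (by linarith)

end Pool.Agent.MP_71ac24_nt.ZD
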