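import Pool.Agent.MP_71ac24_nt.ZD.Basic
import Pool.Agent.MP_2033ac_nt.PN.RLVA

/-! Zero density: the branch that comes from the double sum estimate. -/

namespace Pool.Agent.MP_71ac24_nt.ZD
open Finset Real Filter
open Pool.Agent.MP_71ac24_nt.H14 (ei ei_add norm_ei)
open Pool.Agent.MP_71ac24_nt Pool.Agent.MP_a404e6_nt.W

/-- the exponent from the double sum estimate -/
noncomputable def AD (σ : ℝ) : ℝ :=
  max 2 (min (21 / (43 * σ - 23)) (max (9 / (7 * σ - 1)) (17 / (59 * σ - 37))))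

/-- the combined exponent -/
noncomputable def AB (σ : ℝ) : ℝ := if σ < 19 / 25 then AA σ else AD σ

/-- the four alternatives on a window of logarithmic length `c` -/
def DS (k e t m c r a : ℝ) : Prop :=
  r - t + c + 2 * a ≤ e + 2 * m ∨ 2 * a ≤ e + 3 * m / 2 ∨
    1 / (2 * k) * (r - t + c) + 2 * a ≤ e + c / 2 + m ∨
      (2 * k + 1) / (4 * k * (k + 1)) * (r - t + c) + 2 * a ≤ e + 3 * m / 2 + 1 / (4 * k) * c

theorem AD_ge (σ : ℝ) : 2 ≤ AD σ := le_max_left _ _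

theorem AD_le {σ : ℝ} (h : 19 / 25 ≤ σ) : AD σ ≤ 16 / 7 := by
  refine max_le (by norm_num) (min_le_of_left_le ?_)
  rw [div_le_iff₀ (by linarith)]; linarith

theorem ds_t {A q d t P : ℝ} (hd : 0 < d) (ht : 0 ≤ t) (h : q / d ≤ A) (hP : A * t ≤ P) :
    q * t ≤ d * P := by
  have h1 := (mul_le_mul_of_nonneg_right h ht).trans hP
  rw [div_mul_eq_mul_div, div_le_iff₀ hd] at h1
  linarith

theorem ds_lp {t P m σ r a e : ℝ} (he : 0 ≤ e) (ht : 0 ≤ t) (h1 : 19 / 25 ≤ σ) (h2 : σ ≤ 1)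
    (hA : AD σ * t ≤ P) (m1 : P / 3 ≤ m) (m2 : m ≤ P / 2) (ha : σ * m - e ≤ a)
    (hm : r + 2 * a ≤ e + max t m + m)
    (hd : ∀ c, 0 ≤ c → c ≤ t → DS 2 e t m c r a ∧ DS 3 e t m c r a) :
    r ≤ 1000 * e + (1 - σ) * P := by
  have t2 : 2 * t ≤ P := (mul_le_mul_of_nonneg_right (AD_ge σ) ht).trans hA
  have P0 : 0 ≤ P := by linarith
  have q1 : 0 ≤ (1 - σ) * (P - 2 * m) := mul_nonneg (by linarith) (by linarith)
  have q2 : 0 ≤ (σ - 19 / 25) * (m - P / 3) := mul_nonneg (by linarith) (by linarith)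
  have q3 : 0 ≤ (σ - 19 / 25) * P := mul_nonneg (by linarith) P0
  have q4 : 0 ≤ (1 - σ) * P := mul_nonneg (by linarith) P0
  rcases le_total t m with g | g
  · rw [max_eq_right g] at hm
    linarith
  rw [max_eq_left g] at hm
  rcases le_total σ (31 / 40) with s | s
  · have a1 : 9 * t ≤ (7 * σ - 1) * P := by
      refine ds_t (by linarith) ht (le_max_of_le_right (le_min ?_ (le_max_left _ _))) hA
      rw [div_le_div_iff₀ (by linarith) (by linarith)]; linarith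
    have a2 : 17 * t ≤ (59 * σ - 37) * P := by
      refine ds_t (by linarith) ht (le_max_of_le_right (le_min ?_ (le_max_right _ _))) hA
      rw [div_le_div_iff₀ (by linarith) (by linarith)]; linarith
    rcases le_total t (((1 - σ) * P - t + 12 * (σ * m) - 6 * m) / 2) with u | u
    · have := (hd t ht le_rfl).2
      norm_num [DS] at this
      rcases this with b | b | b | b <;> linarith
    · have := (hd _ (by linarith) u).2
      generalize hc : ((1 - σ) * P - t + 12 * (σ * m) - 6 * m) / 2 = c at this u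
      norm_num [DS] at this
      rcases this with b | b | b | b <;> linarith
  · have a1 : 21 * t ≤ (43 * σ - 23) * P := by
      refine ds_t (by linarith) ht (le_max_of_le_right (le_min le_rfl (le_max_of_le_left ?_))) hA
      rw [div_le_div_iff₀ (by linarith) (by linarith)]; linarith
    have q5 : 0 ≤ (σ - 31 / 40) * P := mul_nonneg (by linarith) P0
    rcases le_total t ((1 - σ) * P - t + 8 * (σ * m) - 4 * m) with u | u
    · have := (hd t ht le_rfl).1
      norm_num [DS] at this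
      rcases this with b | b | b | b <;> linarith
    · have := (hd _ (by linarith) u).1
      generalize hc : (1 - σ) * P - t + 8 * (σ * m) - 4 * m = c at this u
      norm_num [DS] at this
      rcases this with b | b | b | b <;> linarith

theorem ds_win {k : ℕ} (hk : 1 ≤ k) (ε : ℝ) (hε : 0 < ε) : ∃ C : ℝ, 0 < C ∧
    ∀ (f : AF) (a b B V W : ℝ) (S : Finset ℤ) (s0 : ℤ), 0 ≤ b → 0 < B → Bd f B → Sp f a b →
      0 ≤ V → 0 ≤ W → (∀ t ∈ S, s0 ≤ t ∧ (t : ℝ) ≤ s0 + W ∧ V ≤ ‖Dp f t‖) →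
        #S * V ^ 2 ≤ C * B ^ 2 * (exp b + W) ^ ε * H17R.FF k (exp b) #S W * exp b := by
  obtain ⟨C, C0, hC⟩ := H17R.top2 hk ε hε
  refine ⟨C, C0, fun f a b B V W S s0 b0 B0 hB hs V0 W0 hS => ?_⟩
  have n1 := Nat.floor_le (exp_pos b).le
  have n0 : 1 ≤ ⌊exp b⌋₊ := Nat.one_le_floor_iff _ |>.2 (one_le_exp b0)
  have inj : Function.Injective fun t : ℤ => (t : ℝ) - s0 := fun s t h => by simpa using h
  have h := hC _ W (S.image fun t : ℤ => (t : ℝ) - s0)
    (fun n => (B⁻¹ * f n : ℝ) * ei (s0 * Real.log n)) n0 W0 (fun x hx y hy h => by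
      obtain ⟨s, -, rfl⟩ := mem_image.1 hx
      obtain ⟨t, -, rfl⟩ := mem_image.1 hy
      rw [sub_sub_sub_cancel_right]
      exact_mod_cast Int.one_le_abs (sub_ne_zero.2 fun e => h (by rw [e])))
    (fun x hx => by
      obtain ⟨s, h, rfl⟩ := mem_image.1 hx
      obtain ⟨h1, h2, -⟩ := hS s h
      have h3 : (s0 : ℝ) ≤ s := by exact_mod_cast h1
      constructor <;> linarith)
    (fun n => by
      rw [norm_mul, norm_ei, mul_one, Complex.norm_real, norm_mul, norm_of_nonneg (inv_pos.2 B0).le,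
        inv_mul_le_one₀ B0]
      exact hB n)
  rw [card_image_of_injective _ inj, sum_image fun s _ t _ e => inj e] at h
  have h1 : #S * (B⁻¹ * V) ^ 2 ≤ ∑ t ∈ S, ‖∑ n ∈ Icc 1 ⌊exp b⌋₊,
      ((B⁻¹ * f n : ℝ) : ℂ) * ei (s0 * Real.log n) * ei (((t : ℝ) - s0) * Real.log n)‖ ^ 2 := by
    rw [← nsmul_eq_mul]
    refine card_nsmul_le_sum _ _ _ fun t ht => pow_le_pow_left₀ (by positivity) ?_ 2
    have h1 := (hS t ht).2.2
    rw [Dp_eq fun _ => hs.zero] at h1
    refine (mul_le_mul_of_nonneg_left h1 (inv_pos.2 B0).le).trans_eq ?_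
    have e : ∀ z : ℂ, B⁻¹ * ‖z‖ = ‖(B⁻¹ : ℝ) * z‖ := fun z => by
      rw [norm_mul, Complex.norm_real, norm_of_nonneg (inv_pos.2 B0).le]
    rw [e, mul_sum]
    refine congrArg _ (sum_congr rfl fun n _ => ?_)
    rw [mul_assoc, ← ei_add, Complex.ofReal_mul, mul_assoc, ← add_mul, add_sub_cancel]
  have R0 : (0 : ℝ) ≤ #S := Nat.cast_nonneg _
  have h2 : H17R.FF k ⌊exp b⌋₊ #S W ≤ H17R.FF k (exp b) #S W := by
    unfold H17R.FF
    gcongr
  have h3 := H17R.FF_nonneg k (Nat.cast_nonneg ⌊exp b⌋₊) R0 W0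
  have h4 := h3.trans h2
  have h5 : #S * (B⁻¹ * V) ^ 2 ≤ C * (exp b + W) ^ ε * H17R.FF k (exp b) #S W * exp b :=
    (h1.trans h).trans (by gcongr)
  calc _ = B ^ 2 * (#S * (B⁻¹ * V) ^ 2) := by field_simp
    _ ≤ B ^ 2 * (C * (exp b + W) ^ ε * H17R.FF k (exp b) #S W * exp b) := by gcongr
    _ = _ := by ring

theorem ds_pig (T W : ℕ) (hW : 1 ≤ W) (F : ℤ → ℝ) (V : ℝ) : ∃ (S : Finset ℤ) (s0 : ℤ),
    (∀ t ∈ S, s0 ≤ t ∧ (t : ℝ) ≤ s0 + W ∧ V ≤ F t) ∧ cnt T F V ≤ (2 * T / W + 1) * #S := by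
  have W0 : (0 : ℤ) < W := by exact_mod_cast hW
  obtain ⟨j, -, hj⟩ := exists_max_image (Icc (0 : ℤ) (2 * T / W))
    (fun j => #{t ∈ {t ∈ Icc (-(T : ℤ)) T | V ≤ F t} | (t + T) / W = j})
    ⟨0, mem_Icc.2 ⟨le_rfl, Int.ediv_nonneg (by positivity) W0.le⟩⟩
  refine ⟨{t ∈ {t ∈ Icc (-(T : ℤ)) T | V ≤ F t} | (t + T) / W = j}, j * W - T,
    fun t ht => ?_, ?_⟩
  · obtain ⟨h1, rfl⟩ := mem_filter.1 ht
    have h2 := Int.ediv_mul_le (t + T) W0.ne'
    have h3 := Int.lt_ediv_add_one_mul_self (t + T) W0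
    refine ⟨by linarith, ?_, (mem_filter.1 h1).2⟩
    exact_mod_cast (by linarith : t ≤ (t + T) / W * W - T + W)
  · have h1 := card_eq_sum_card_fiberwise (f := fun t : ℤ => (t + (T : ℤ)) / (W : ℤ))
      (s := {t ∈ Icc (-(T : ℤ)) T | V ≤ F t}) (t := Icc (0 : ℤ) (2 * T / W)) fun t ht => by
        have h := mem_Icc.1 (mem_filter.1 (mem_coe.1 ht)).1
        exact mem_coe.2 (mem_Icc.2 ⟨Int.ediv_nonneg (by linarith [h.1]) W0.le,
          Int.ediv_le_ediv W0 (by linarith [h.2])⟩)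
    have h2 := sum_le_card_nsmul _ _ _ hj
    rw [← h1, smul_eq_mul] at h2
    have h3 : (#(Icc (0 : ℤ) (2 * T / W)) : ℝ) ≤ 2 * T / W + 1 := by
      have h4 : ((#(Icc (0 : ℤ) (2 * T / W)) : ℕ) : ℤ) = 2 * T / W + 1 := by
        rw [Int.card_Icc_of_le _ _ (by linarith [Int.ediv_nonneg (show (0 : ℤ) ≤ 2 * T by positivity) W0.le])]
        ring
      have h5 : ((2 * T / W : ℤ) : ℝ) ≤ 2 * T / W := by
        rw [le_div_iff₀ (by exact_mod_cast W0)]
        exact_mod_cast Int.ediv_mul_le (2 * T) W0.ne'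
      have h6 : (#(Icc (0 : ℤ) (2 * T / W)) : ℝ) = ((2 * T / W : ℤ) : ℝ) + 1 := by exact_mod_cast h4
      linarith
    unfold cnt
    refine le_trans ?_ (mul_le_mul_of_nonneg_right h3 (Nat.cast_nonneg _))
    exact_mod_cast h2

theorem ds_gen {k : ℕ} (hk : 1 ≤ k) (ε : ℝ) (hε : 0 < ε) : ∀ᶠ L : ℝ in atTop,
    ∀ (g : AF) (a0 m t c : ℝ) (T : ℕ), 0 ≤ m → m ≤ L → 0 ≤ c → c ≤ t → t ≤ L → (T : ℝ) ≤ exp t →
      Bd g (exp (ε / 20 * L)) → Sp g a0 m → ∀ r a : ℝ,
        exp r ≤ cnt T (fun s => ‖Dp g s‖) (exp a) → DS k (ε * L) t m c r a := by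
  obtain ⟨C, C0, hC⟩ := ds_win hk (ε / 20) (by positivity)
  filter_upwards [mv_ev (4 * C * exp 2) (half_pos hε), eventually_ge_atTop (1 : ℝ)]
    with L e1 hL g a0 m t c T m0 mL c0 ct tL hT hB hs r a hr
  have hεL : 0 < ε * L := by positivity
  have w1 := Nat.floor_le (exp_pos c).le
  have w0 : 1 ≤ ⌊exp c⌋₊ := Nat.one_le_floor_iff _ |>.2 (one_le_exp c0)
  have w2 := Nat.lt_floor_add_one (exp c)
  obtain ⟨S, s0, hS, hc⟩ := ds_pig T _ w0 (fun s => ‖Dp g s‖) (exp a)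
  generalize ⌊exp c⌋₊ = W at w0 w1 w2 hS hc
  have W1 : (1 : ℝ) ≤ W := by exact_mod_cast w0
  have h := hC g a0 m _ (exp a) W S s0 m0 (exp_pos _) hB hs (exp_pos _).le (by linarith) hS
  have h1 : (2 * T / W + 1 : ℝ) ≤ exp (t - c + 2) := by
    have a1 : 1 ≤ exp (t - c) := one_le_exp (by linarith)
    have a2 : (2 * T / W : ℝ) ≤ 4 * exp (t - c) := by
      rw [div_le_iff₀ (by linarith)]
      have a3 : exp t = exp (t - c) * exp c := by rw [← exp_add, sub_add_cancel]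
      nlinarith
    have a4 : (5 : ℝ) ≤ exp 2 := by
      have := add_one_le_exp (1 / 2 : ℝ)
      have a5 : exp 2 = exp (1 / 2) ^ 4 := by rw [← exp_nat_mul]; norm_num
      rw [a5]
      exact le_trans (by norm_num) (pow_le_pow_left₀ (by norm_num) this 4)
    rw [exp_add]
    nlinarith
  have h2 : exp r ≤ exp (t - c + 2) * #S :=
    hr.trans (hc.trans (mul_le_mul_of_nonneg_right h1 (Nat.cast_nonneg _)))
  have R0 : (0 : ℝ) < #S := by
    by_contra hn
    have : (#S : ℝ) = 0 := le_antisymm (not_lt.1 hn) (Nat.cast_nonneg _)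
    rw [this, mul_zero] at h2
    exact absurd (exp_pos r) (not_lt.2 h2)
  obtain ⟨x, hx⟩ : ∃ x, (#S : ℝ) = exp x := ⟨_, (exp_log R0).symm⟩
  rw [hx] at h h2
  rw [← exp_add, exp_le_exp] at h2
  have k1 : (1 : ℝ) ≤ k := by exact_mod_cast hk
  by_contra hn
  simp only [DS, not_or, not_le] at hn
  obtain ⟨n1, n2, n3, n4⟩ := hn
  have p0 : (0 : ℝ) ≤ 1 / (2 * k) := by positivity
  have p1 : (1 : ℝ) / (2 * k) ≤ 1 := by rw [div_le_one (by positivity)]; linarith
  have p2 : (0 : ℝ) ≤ (2 * k + 1) / (4 * k * (k + 1)) := by positivity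
  have p3 : (2 * k + 1 : ℝ) / (4 * k * (k + 1)) ≤ 1 := by
    rw [div_le_one (by positivity)]; nlinarith
  have p4 : (0 : ℝ) ≤ 1 / (4 * k) := by positivity
  have pw : ∀ u : ℝ, 0 ≤ u → (W : ℝ) ^ u ≤ exp (c * u) := fun u hu => by
    rw [exp_mul]
    exact rpow_le_rpow (by linarith) w1 hu
  have f1 : H17R.FF k (exp m) (exp x) W ≤ 4 * exp (x + 2 * a - m - ε * L + 2) := by
    unfold H17R.FF
    generalize (1 : ℝ) / (2 * k) = u at *
    generalize (2 * k + 1 : ℝ) / (4 * k * (k + 1)) = v at *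
    generalize (1 : ℝ) / (4 * k) = w at *
    have b1 : exp m ≤ exp (x + 2 * a - m - ε * L + 2) := exp_le_exp.2 (by linarith)
    have b2 : exp x * exp m ^ (1 / 2 : ℝ) ≤ exp (x + 2 * a - m - ε * L + 2) := by
      rw [← exp_mul, ← exp_add]
      exact exp_le_exp.2 (by linarith)
    have b3 : (W : ℝ) ^ (1 / 2 : ℝ) * exp x ^ (1 - u) ≤ exp (x + 2 * a - m - ε * L + 2) := by
      refine (mul_le_mul_of_nonneg_right (pw _ (by norm_num)) (by positivity)).trans ?_
      rw [← exp_mul, ← exp_add]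
      have := mul_le_mul_of_nonneg_left (show r - t + c ≤ x + 2 by linarith) p0
      exact exp_le_exp.2 (by linarith)
    have b4 : exp m ^ (1 / 2 : ℝ) * (W : ℝ) ^ w * exp x ^ (1 - v) ≤
        exp (x + 2 * a - m - ε * L + 2) := by
      refine (mul_le_mul_of_nonneg_right (mul_le_mul_of_nonneg_left (pw _ p4) (by positivity))
        (by positivity)).trans ?_
      rw [← exp_mul, ← exp_mul, ← exp_add, ← exp_add]
      have := mul_le_mul_of_nonneg_left (show r - t + c ≤ x + 2 by linarith) p2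
      exact exp_le_exp.2 (by linarith)
    linarith
  have f2 : (exp m + W) ^ (ε / 20) ≤ exp (ε / 10 * L) := by
    have a1 : exp m + W ≤ exp (2 * L) := by
      have a2 : exp m ≤ exp L := exp_le_exp.2 mL
      have a3 : exp c ≤ exp L := exp_le_exp.2 (by linarith)
      have a4 := add_one_le_exp L
      rw [two_mul, exp_add]
      nlinarith [exp_pos L]
    refine (rpow_le_rpow (by positivity) a1 (by positivity)).trans_eq ?_
    rw [← exp_mul]; congr 1; ring
  have f0 := H17R.FF_nonneg k (exp_pos m).le (exp_pos x).le (show (0 : ℝ) ≤ W by linarith)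
  have f3 : exp x * exp a ^ 2 ≤ exp (ε / 2 * L) * (exp (ε / 20 * L) ^ 2 * exp (ε / 10 * L) *
      exp (x + 2 * a - m - ε * L) * exp m) := by
    calc _ ≤ C * exp (ε / 20 * L) ^ 2 * exp (ε / 10 * L) *
          (4 * exp (x + 2 * a - m - ε * L + 2)) * exp m := h.trans (by gcongr)
      _ = 4 * C * exp 2 * (exp (ε / 20 * L) ^ 2 * exp (ε / 10 * L) *
          exp (x + 2 * a - m - ε * L) * exp m) := by rw [exp_add (x + 2 * a - m - ε * L)]; ring
      _ ≤ _ := by gcongr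
  simp only [← exp_nat_mul, ← exp_add, exp_le_exp, Nat.cast_ofNat] at f3
  linarith

theorem ds_mono {k e e' t m m' c r a η : ℝ} (h : DS k e t m c r a) (hm : m = m' + η) (h0 : 0 ≤ η)
    (he : e + 2 * η ≤ e') : DS k e' t m' c r a :=
  h.imp (fun h => by linarith) fun h => h.imp (fun h => by linarith) fun h =>
    h.imp (fun h => by linarith) fun h => by linarith

theorem lvd_row (κ ε : ℝ) (hκ : 0 < κ) (hε : 0 < ε) (hε1 : ε ≤ 1) : ∃ e : ℝ, 0 < e ∧ e ≤ 1 ∧
    ∀ᶠ L : ℝ in atTop, ∀ (f : AF) (y σ : ℝ), Bd f 1 → Sp f y (y + 1 / 20) → κ * L ≤ y →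
      y ≤ (1 / 2 + ε / 4) * L → 19 / 25 ≤ σ → σ ≤ 1 →
        cnt ⌊exp L⌋₊ (fun t => ‖Dp f t‖) (exp (σ * y - e * L)) ≤
          exp ((AD σ * (1 - σ) + ε) * L) := by
  obtain ⟨K, hK⟩ : ∃ K : ℕ, 2 / κ ≤ K := ⟨_, Nat.le_ceil _⟩
  have K0 : (0 : ℝ) ≤ K := Nat.cast_nonneg K
  obtain ⟨e, e0, he⟩ : ∃ e : ℝ, 0 < e ∧ 6000 * (K + 1) * e = ε :=
    ⟨ε / (6000 * (K + 1)), by positivity, by field_simp⟩
  have Ke : 0 ≤ K * e := by positivity
  refine ⟨e, e0, by linarith, ?_⟩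
  have hδ : 0 < ε / 18000 := by positivity
  obtain ⟨C, -, hC⟩ := bd_ev K (ε / 18000 / 40) (by positivity)
  have h3 : Tendsto (fun L : ℝ => 3 * L) atTop atTop := tendsto_id.const_mul_atTop (by norm_num)
  filter_upwards [h3.eventually (genP _ hδ), h3.eventually (ds_gen (k := 2) (by norm_num) _ hδ),
    h3.eventually (ds_gen (k := 3) (by norm_num) _ hδ),
    h3.eventually (mv_ev C (show 0 < ε / 18000 / 40 by positivity)), bx_ev hε (600 * K : ℝ),
    eventually_ge_atTop (K : ℝ), eventually_gt_atTop (0 : ℝ)]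
    with L hG d2 d3 e1 e2 e3 hL f y σ hB hS h1 h2 s1 s2
  have y0 : 0 < y := lt_of_lt_of_le (mul_pos hκ hL) h1
  have A1 := mul_le_mul_of_nonneg_right (AD_ge σ) hL.le
  have A2 := mul_le_mul_of_nonneg_right (AD_le s1) hL.le
  have A3 := mul_le_mul_of_nonneg_right hε1 hL.le
  have A4 : 0 < ε * L := mul_pos hε hL
  obtain ⟨k, k1, k2⟩ := MP_2033ac_nt.PN.lva_k (P := (AD σ + ε) * L) y0 (by linarith)
  have k0 : (0 : ℝ) ≤ k := Nat.cast_nonneg k
  have k3 : (k : ℝ) ≤ K := by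
    refine le_trans ?_ hK
    rw [le_div_iff₀ hκ]
    have := mul_le_mul_of_nonneg_left h1 k0
    refine le_of_mul_le_mul_right ?_ hL
    linarith
  have hs : Sp (∏ _i ∈ range k, f) (k * y) (k * y + k / 20) := by
    have := Sp.prod (range k) (f := fun _ => f) (a := fun _ => y) (b := fun _ => y + 1 / 20)
      fun _ _ => hS
    simp only [sum_const, card_range, nsmul_eq_mul] at this
    exact this.mono le_rfl (le_of_eq (by ring))
  have m0 : 0 ≤ k * y + k / 20 := by positivity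
  have mL : k * y + k / 20 ≤ 3 * L := by linarith
  have hb : Bd (∏ _i ∈ range k, f) (exp (ε / 18000 / 20 * (3 * L))) := fun n => by
    refine (hC ℕ (range k) (fun _ => f) _ _ (by rw [card_range]; exact_mod_cast k3) m0
      (fun _ _ => hB) hs n).trans ?_
    rw [show ε / 18000 / 20 * (3 * L) = ε / 18000 / 40 * (3 * L) + ε / 18000 / 40 * (3 * L) by ring,
      exp_add]
    exact mul_le_mul e1 (exp_le_exp.2 (mul_le_mul_of_nonneg_left mL (by positivity)))
      (exp_pos _).le (exp_pos _).le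
  have hc1 := MP_2033ac_nt.PN.lva_cnt ⌊exp L⌋₊ k (fun t => ‖Dp f t‖)
    (fun t => ‖Dp (∏ _i ∈ range k, f) t‖) (fun t => by
    rw [Dp_prod (range k) (f := fun _ => f) (a := fun _ => y) (b := fun _ => y + 1 / 20)
      fun _ _ => hS, prod_const, card_range, norm_pow]) (σ * y - e * L)
  obtain ⟨N, hN⟩ : ∃ N : ℕ, cnt ⌊exp L⌋₊ (fun t => ‖Dp f t‖) (exp (σ * y - e * L)) = N := ⟨_, rfl⟩
  rw [hN] at hc1 ⊢
  rcases Nat.eq_zero_or_pos N with rfl | N0
  · exact_mod_cast (exp_pos _).le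
  have N1 : (1 : ℝ) ≤ N := by exact_mod_cast N0
  have hU := Nat.floor_le (exp_pos L).le
  have hr : exp (Real.log N) ≤ cnt ⌊exp L⌋₊ (fun t => ‖Dp (∏ _i ∈ range k, f) t‖)
      (exp (k * (σ * y - e * L))) := by rwa [exp_log (by linarith)]
  obtain ⟨-, g1, -⟩ := hG _ _ _ _ _ m0 mL hU hb hs (Real.log N) (k * (σ * y - e * L))
    (Real.log_nonneg N1) (by linarith [exp_pos (Real.log N)])
  have g3 := g1 1 le_rfl (by norm_num)
  simp only [Nat.cast_one, one_mul, mul_one] at g3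
  have g4 : max L (k * y + k / 20) ≤ max L (k * y) + k / 20 :=
    max_le (by linarith [le_max_left L (k * y)]) (by linarith [le_max_right L (k * y)])
  rw [Nat.cast_ofNat] at d2 d3
  have g5 : 0 ≤ k * e * L := by positivity
  have g6 : k * e * L ≤ K * e * L := by gcongr
  have g7 : 6000 * (K * e * L) ≤ ε * L := by
    rw [← he]; linarith [mul_pos e0 hL]
  have key := ds_lp (t := L) (P := (AD σ + ε) * L) (m := k * y) (r := Real.log N)
    (a := k * (σ * y - e * L)) (e := ε / 18000 * (3 * L) + k / 10 + k * e * L) (by positivity)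
    hL.le s1 s2 (by linarith) k1 k2 (by linarith) (by linarith) fun c c0 c1 =>
      ⟨ds_mono (d2 _ _ _ L c _ m0 mL c0 c1 (by linarith) hU hb hs _ _ hr) rfl (by positivity)
          (by linarith),
        ds_mono (d3 _ _ _ L c _ m0 mL c0 c1 (by linarith) hU hb hs _ _ hr) rfl (by positivity)
          (by linarith)⟩
  have g8 := mul_le_mul_of_nonneg_right s1 A4.le
  rw [← exp_log (show (0 : ℝ) < N by linarith)]
  exact exp_le_exp.2 (by linarith)

theorem AB_ge {σ : ℝ} (h : 1 / 2 ≤ σ) (h' : σ ≤ 1) : 2 ≤ AB σ := by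
  unfold AB
  split_ifs
  exacts [AA_ge h h', AD_ge σ]

theorem lvb_row (h : LVA_s) : LVG AB := by
  intro κ ε hκ hε hε1
  obtain ⟨e1, a0, a1, ha⟩ := h κ ε hκ hε hε1
  obtain ⟨e2, b0, -, hb⟩ := lvd_row κ ε hκ hε hε1
  refine ⟨min e1 e2, lt_min a0 b0, min_le_of_left_le a1, ?_⟩
  filter_upwards [ha, hb, eventually_ge_atTop (0 : ℝ)] with L ha hb hL f y σ hB hS h1 h2 s1 s2
  have c1 := mul_le_mul_of_nonneg_right (min_le_left e1 e2) hL
  have c2 := mul_le_mul_of_nonneg_right (min_le_right e1 e2) hL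
  unfold AB
  split_ifs with g
  · exact (cnt_anti _ _ (exp_le_exp.2 (by linarith))).trans (ha f y σ hB hS h1 h2 s1 s2)
  · exact (cnt_anti _ _ (exp_le_exp.2 (by linarith))).trans
      (hb f y σ hB hS h1 h2 (not_lt.1 g) s2)

theorem adm_AB (h : LVA_s) : Adm AB := ⟨fun _ => AB_ge, lvb_row h⟩

end Pool.Agent.MP_71ac24_nt.ZD
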