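import Pool.Agent.MP_71ac24_nt.ZD.Basic

namespace Pool.Agent.MP_71ac24_nt.ZD
open Finset Real Filter
open Pool.Agent.MP_71ac24_nt.H14 (ei ei_add norm_ei ei_zero conj_ei norm_ei_sub)
open Pool.Agent.MP_71ac24_nt Pool.Agent.MP_a404e6_nt.W
open Pool.Agent.MP_2033ac_nt.PN (mz ZA_s)

-- helper lemmas of this row: prefix main_

theorem main_base (H : ℝ) : ∃ C0 : ℝ, 0 ≤ C0 ∧ ∀ S : Finset ℂ,
    (∀ ρ ∈ S, 0 ≤ ρ.re ∧ 0 < ρ.im ∧ ρ.im ≤ H) → ∑ ρ ∈ S, od ρ ≤ C0 := by
  classical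
  have hf := (isCompact_closedBall (0 : ℂ) (1 + H)).inter_riemannZetaZeros_finite
  refine ⟨∑ ρ ∈ hf.toFinset, od ρ, sum_nonneg fun ρ _ => od_nonneg ρ, fun S hS => ?_⟩
  rw [← sum_filter_of_ne (p := fun ρ => riemannZeta ρ = 0) (fun ρ hρ h => by
    by_contra h0
    exact h (od_zero (hS ρ hρ).2.1.ne' h0))]
  refine sum_le_sum_of_subset_of_nonneg (fun ρ hρ => ?_) fun ρ _ _ => od_nonneg ρ
  obtain ⟨h1, h2⟩ := mem_filter.mp hρ
  obtain ⟨a, b, c⟩ := hS ρ h1
  have d : ρ.re < 1 := by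
    by_contra h
    exact riemannZeta_ne_zero_of_one_le_re (not_lt.mp h) h2
  rw [Set.Finite.mem_toFinset]
  refine ⟨?_, h2⟩
  rw [mem_closedBall_zero_iff]
  refine (Complex.norm_le_abs_re_add_abs_im ρ).trans ?_
  rw [abs_of_nonneg a, abs_of_pos b]
  linarith

theorem main_row (hONE : ONE_s) : MAIN_s := by
  classical
  intro A hA ε hε
  obtain ⟨L0, hL0⟩ := eventually_atTop.mp (hONE A hA ε hε)
  obtain ⟨C0, hC0, hbase⟩ := main_base (exp L0)
  set q : ℝ := (1 / 2 : ℝ) ^ ε with hq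
  have hq1 : q < 1 := Real.rpow_lt_one (by norm_num) (by norm_num) hε
  have hq2 : 0 < 1 - q := by linarith
  set C1 : ℝ := 1 / (1 - q) with hC1
  have hC1p : 0 < C1 := by positivity
  have hC1e : C1 * q + 1 = C1 := by
    rw [hC1]
    field_simp
    ring
  refine ⟨C0 + C1, fun σ T S h1 h2 hT hS => ?_⟩
  set x : ℝ := A σ * (1 - σ) + ε with hx
  have hxε : ε ≤ x := by
    have := mul_nonneg (le_trans (by norm_num) (hA.1 σ h1 h2)) (sub_nonneg.mpr h2)
    linarith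
  have key : ∀ (n : ℕ) (T : ℝ) (S : Finset ℂ), 0 < T → T ≤ 2 ^ n * exp L0 →
      (∀ ρ ∈ S, σ ≤ ρ.re ∧ 0 < ρ.im ∧ ρ.im ≤ T) → ∑ ρ ∈ S, od ρ ≤ C0 + C1 * T ^ x := by
    have hb : ∀ (T : ℝ) (S : Finset ℂ), 0 < T → T ≤ exp L0 →
        (∀ ρ ∈ S, σ ≤ ρ.re ∧ 0 < ρ.im ∧ ρ.im ≤ T) → ∑ ρ ∈ S, od ρ ≤ C0 + C1 * T ^ x := by
      intro T S hT0 hT hS
      have a := hbase S fun ρ hρ =>
        ⟨by linarith [(hS ρ hρ).1], (hS ρ hρ).2.1, (hS ρ hρ).2.2.trans hT⟩
      have b : 0 ≤ C1 * T ^ x := mul_nonneg hC1p.le (Real.rpow_nonneg hT0.le _)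
      linarith
    intro n
    induction n with
    | zero =>
      intro T S hT0 hT hS
      exact hb T S hT0 (by simpa using hT) hS
    | succ n ih =>
      intro T S hT0 hT hS
      rcases le_total T (exp L0) with hle | hle
      · exact hb T S hT0 hle hS
      have hL : L0 ≤ Real.log T := (Real.le_log_iff_exp_le hT0).mpr hle
      have a := ih (T / 2) (S.filter fun ρ => ρ.im ≤ T / 2) (by linarith)
        (by rw [pow_succ] at hT; linarith) (fun ρ hρ => by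
          obtain ⟨u, v⟩ := mem_filter.mp hρ
          exact ⟨(hS ρ u).1, (hS ρ u).2.1, v⟩)
      have b := hL0 (Real.log T) hL σ (S.filter fun ρ => ¬ ρ.im ≤ T / 2) h1 h2 (fun ρ hρ => by
          obtain ⟨u, v⟩ := mem_filter.mp hρ
          rw [Real.exp_log hT0]
          exact ⟨(hS ρ u).1, (not_le.mp v).le, (hS ρ u).2.2⟩)
      have c : exp (x * Real.log T) = T ^ x := by
        rw [Real.rpow_def_of_pos hT0, mul_comm]
      rw [← hx, c] at b
      have d : (T / 2) ^ x ≤ T ^ x * q := by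
        rw [show T / 2 = T * (1 / 2) by ring, Real.mul_rpow hT0.le (by norm_num)]
        exact mul_le_mul_of_nonneg_left
          (Real.rpow_le_rpow_of_exponent_ge (by norm_num) (by norm_num) hxε)
          (Real.rpow_nonneg hT0.le _)
      have e := sum_filter_add_sum_filter_not S (fun ρ => ρ.im ≤ T / 2) od
      have f := mul_le_mul_of_nonneg_left d hC1p.le
      have g : C1 * (T ^ x * q) + T ^ x = C1 * T ^ x := by
        calc C1 * (T ^ x * q) + T ^ x = (C1 * q + 1) * T ^ x := by ring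
          _ = C1 * T ^ x := by rw [hC1e]
      linarith
  obtain ⟨n, hn⟩ := pow_unbounded_of_one_lt (T / exp L0) (by norm_num : (1 : ℝ) < 2)
  have a := key n T S (by linarith) (by
    rw [div_lt_iff₀ (exp_pos L0)] at hn
    exact hn.le) hS
  have b : 1 ≤ T ^ x := Real.one_le_rpow hT (by linarith)
  have c := mul_le_mul_of_nonneg_left b hC0
  linarith

end Pool.Agent.MP_71ac24_nt.ZD
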