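import Pool.Agent.MP_71ac24_nt.ZD.Basic

namespace Pool.Agent.MP_71ac24_nt.ZD
open Finset Real Filter
open Pool.Agent.MP_71ac24_nt.H14 (ei ei_add norm_ei ei_zero conj_ei norm_ei_sub)
open Pool.Agent.MP_71ac24_nt Pool.Agent.MP_a404e6_nt.W
open Pool.Agent.MP_2033ac_nt.PN (mz ZA_s)

-- helper lemmas of this row: prefix mol_

theorem mol_one {L : ℝ} {n : ℕ} (hn : n ≠ 0) (h : Real.log n ≤ L / 2) :
    zs 0 (⌈20 * L⌉₊ + 1) n = 1 := by
  have h0 := Real.log_natCast_nonneg n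
  have h1 := Nat.le_ceil (20 * L)
  rw [zs_apply (Nat.zero_le _) hn, smoothTransition.one_of_one_le (by push_cast; linarith),
    smoothTransition.zero_of_nonpos (by push_cast; linarith), sub_zero]

theorem mol_bd (J : ℕ) : Bd (zs 0 J) 1 := fun n => by
  rcases eq_or_ne n 0 with rfl | hn
  · simp
  · rw [zs_apply (Nat.zero_le _) hn, abs_le]
    have a1 := smoothTransition.nonneg (40 * Real.log n + 1 - (0 : ℕ))
    have a2 := smoothTransition.le_one (40 * Real.log n + 1 - (0 : ℕ))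
    have a3 := smoothTransition.nonneg (40 * Real.log n + 1 - J)
    have a4 := smoothTransition.le_one (40 * Real.log n + 1 - J)
    constructor <;> linarith

theorem mol_sp {L : ℝ} (hL : 0 ≤ L) : Sp (zs 0 (⌈20 * L⌉₊ + 1)) 0 (L / 2 + 1 / 20) := fun n h => by
  have h0 := Real.log_natCast_nonneg n
  refine ⟨h0, ?_⟩
  have hn : n ≠ 0 := fun e => h (by simp [e])
  have h1 := (Nat.ceil_lt_add_one (by linarith : 0 ≤ 20 * L)).le
  by_contra g
  apply h
  rw [not_le] at g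
  rw [zs_apply (Nat.zero_le _) hn, smoothTransition.one_of_one_le (by push_cast; linarith),
    smoothTransition.one_of_one_le (by push_cast; linarith), sub_self]

theorem mol_mz (y : ℝ) : Sp (mz ⌊exp y⌋₊) 0 y := fun n h => by
  refine ⟨Real.log_natCast_nonneg n, ?_⟩
  have hn : n ≠ 0 := fun e => h (by simp [e])
  have h1 : n ≤ ⌊exp y⌋₊ := by
    by_contra g
    exact h (by simp [mz, g])
  have h2 : (n : ℝ) ≤ exp y := (Nat.cast_le.2 h1).trans (Nat.floor_le (exp_pos _).le)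
  exact (Real.log_le_iff_le_exp (by exact_mod_cast Nat.pos_of_ne_zero hn)).2 h2

theorem mol_mzb (z : ℕ) : Bd (mz z) 1 := fun n => by
  by_cases h : n ≤ z
  · have : mz z n = (ArithmeticFunction.moebius n : ℝ) := by simp [mz, h]
    rw [this]
    exact_mod_cast ArithmeticFunction.abs_moebius_le_one
  · simp [mz, h]

theorem mol_low {δ L : ℝ} (hδ : δ ≤ 1 / 2) (hL : 0 ≤ L) {n : ℕ} (h : n ≤ ⌊exp (δ * L)⌋₊) :
    E0 δ L n = 0 := by
  rcases eq_or_ne n 0 with rfl | hn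
  · simp
  have h2 : (n : ℝ) ≤ exp (δ * L) := (Nat.cast_le.2 h).trans (Nat.floor_le (exp_pos _).le)
  have h3 : ((ArithmeticFunction.moebius : ArithmeticFunction ℤ) : AF) * ze = 1 :=
    ArithmeticFunction.coe_moebius_mul_coe_zeta
  have h4 : (mz ⌊exp (δ * L)⌋₊ * zs 0 (⌈20 * L⌉₊ + 1)) n = (1 : AF) n := by
    rw [← h3, ArithmeticFunction.mul_apply, ArithmeticFunction.mul_apply]
    refine sum_congr rfl fun p hp => ?_
    obtain ⟨e, n0⟩ := Nat.mem_divisorsAntidiagonal.1 hp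
    have a1 := left_ne_zero_of_mul (e ▸ n0 : p.1 * p.2 ≠ 0)
    have a2 := right_ne_zero_of_mul (e ▸ n0 : p.1 * p.2 ≠ 0)
    have b1 : p.1 ≤ n := e ▸ Nat.le_mul_of_pos_right _ (Nat.pos_of_ne_zero a2)
    have b2 : p.2 ≤ n := e ▸ Nat.le_mul_of_pos_left _ (Nat.pos_of_ne_zero a1)
    have c : Real.log p.2 ≤ L / 2 := by
      have : (p.2 : ℝ) ≤ exp (δ * L) := (Nat.cast_le.2 b2).trans h2
      have := (Real.log_le_iff_le_exp (by exact_mod_cast Nat.pos_of_ne_zero a2)).2 this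
      nlinarith
    rw [mol_one a2 c]
    simp [mz, b1.trans h, a2]
  have h5 : E0 δ L n = (mz ⌊exp (δ * L)⌋₊ * zs 0 (⌈20 * L⌉₊ + 1)) n - (1 : AF) n := rfl
  rw [h5, h4, sub_self]

theorem mol_row : MOL_s := by
  intro δ e hδ hδ' he
  obtain ⟨C, C1, hC⟩ := tau (e / 4) (by linarith)
  filter_upwards [mv_ev (2 * C) (show 0 < e / 2 by linarith), eventually_ge_atTop 1] with L h1 hL
  have hE : ∀ n, E0 δ L n = (mz ⌊exp (δ * L)⌋₊ * zs 0 (⌈20 * L⌉₊ + 1)) n - (1 : AF) n :=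
    fun _ => rfl
  have hS := (mol_mz (δ * L)).mul (mol_sp (L := L) (by linarith))
  have hdL : 0 < δ * L := by positivity
  have hsp : Sp (E0 δ L) (δ * L) ((1 / 2 + δ) * L + 1 / 20) := fun n hn => by
    have g : ⌊exp (δ * L)⌋₊ < n := not_le.1 fun g => hn (mol_low hδ' (by linarith) g)
    have g1 : exp (δ * L) < n := (Nat.floor_lt (exp_pos _).le).1 g
    have g2 : (1 : ℝ) < n := (Real.one_le_exp hdL.le).trans_lt g1
    have g3 : n ≠ 1 := fun e => by simp [e] at g2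
    refine ⟨(Real.le_log_iff_exp_le (by linarith)).2 g1.le, ?_⟩
    rw [hE, ArithmeticFunction.one_apply_ne g3, sub_zero] at hn
    have := (hS n hn).2
    linarith
  refine ⟨fun n => ?_, hsp⟩
  by_cases hn : E0 δ L n = 0
  · rw [hn, abs_zero]; exact (exp_pos _).le
  have n0 : n ≠ 0 := fun e => hn (by simp [e])
  have np : (0 : ℝ) < n := by exact_mod_cast Nat.pos_of_ne_zero n0
  have k1 : |(mz ⌊exp (δ * L)⌋₊ * zs 0 (⌈20 * L⌉₊ + 1)) n| ≤ #n.divisors := by
    rw [ArithmeticFunction.mul_apply]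
    refine (abs_sum_le_sum_abs _ _).trans ((sum_le_card_nsmul _ _ 1 fun p _ => ?_).trans ?_)
    · rw [abs_mul]
      exact mul_le_one₀ (mol_mzb _ _) (abs_nonneg _) (mol_bd _ _)
    · rw [nsmul_eq_mul, mul_one, ← Nat.map_div_right_divisors, card_map]
  have k2 : |(1 : AF) n| ≤ 1 := by
    rw [ArithmeticFunction.one_apply]
    split_ifs <;> simp
  have k3 : (n : ℝ) ^ (e / 4) ≤ exp (e / 2 * L) := by
    rw [Real.rpow_def_of_pos np]
    have := (hsp n hn).2
    refine exp_le_exp.2 ?_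
    have h2 : Real.log n ≤ 2 * L := by nlinarith
    nlinarith
  have k4 : 1 ≤ exp (e / 2 * L) := Real.one_le_exp (by positivity)
  have k5 : exp (e * L) = exp (e / 2 * L) * exp (e / 2 * L) := by
    rw [← exp_add]; ring_nf
  have k6 := hC n
  have k7 : C * (n : ℝ) ^ (e / 4) ≤ C * exp (e / 2 * L) :=
    mul_le_mul_of_nonneg_left k3 (by linarith)
  rw [hE, k5]
  refine (abs_sub _ _).trans ?_
  nlinarith

end Pool.Agent.MP_71ac24_nt.ZD
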