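import Pool.Agent.MP_71ac24_nt.ZD.Basic

namespace Pool.Agent.MP_71ac24_nt.ZD
open Finset Real Filter
open Pool.Agent.MP_71ac24_nt.H14 (ei ei_add norm_ei ei_zero conj_ei norm_ei_sub)
open Pool.Agent.MP_71ac24_nt Pool.Agent.MP_a404e6_nt.W
open Pool.Agent.MP_2033ac_nt.PN (mz ZA_s)

-- helper lemmas of this row: prefix one_

theorem one_lin (C e : ℝ) (he : 0 < e) : ∀ᶠ L : ℝ in atTop, C * L ≤ exp (e * L) := by
  filter_upwards [eventually_ge_atTop 0, eventually_ge_atTop (2 * C / e ^ 2)] with L h0 h1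
  have h2 := Real.quadratic_le_exp_of_nonneg (mul_nonneg he.le h0)
  rw [div_le_iff₀ (by positivity)] at h1
  have h3 := mul_le_mul_of_nonneg_right h1 h0
  have h4 := mul_nonneg he.le h0
  nlinarith

theorem one_row (hCNT : CNT_s) (hINT : INT_s) : ONE_s := by
  intro A hA ε hε
  obtain ⟨C, C0, hC⟩ := hCNT
  filter_upwards [hINT A hA (ε / 2) (ε / 8) (by positivity) (by positivity),
    one_lin C (ε / 2) (by positivity), one_lin 1 (ε / 4) (by positivity),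
    eventually_ge_atTop 12] with L h1 h2 h3 h4 σ S s1 s2 hS
  classical
  have eL : 13 ≤ exp L := by linarith [Real.add_one_le_exp L]
  obtain ⟨B, hB, hZ⟩ : ∃ B : Finset ℤ, (#B : ℝ) ≤ exp ((A σ * (1 - σ) + ε / 2) * L) ∧
      ∀ ρ : ℂ, Zr σ L ρ → ⌊ρ.im⌋ ∈ B := by
    rcases le_total (1 / 2 + ε / 8) σ with g | g
    · exact h1 σ g s2
    refine ⟨Icc 0 ⌊exp L⌋, ?_, fun ρ h => mem_Icc.2 ⟨Int.floor_nonneg.2 ?_, Int.floor_mono h.2.2.2.2⟩⟩
    · have c1 : ((#(Icc (0 : ℤ) ⌊exp L⌋) : ℕ) : ℤ) = ⌊exp L⌋ + 1 - 0 :=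
        Int.card_Icc_of_le _ _ (by have := Int.floor_nonneg.2 (exp_pos L).le; omega)
      have c2 : ((#(Icc (0 : ℤ) ⌊exp L⌋) : ℕ) : ℝ) = ⌊exp L⌋ + 1 := by
        rw [sub_zero] at c1
        exact_mod_cast c1
      have c3 := Int.floor_le (exp L)
      have c4 : 1 - ε / 4 ≤ A σ * (1 - σ) := by
        have := mul_le_mul_of_nonneg_right (hA.1 σ s1 s2) (sub_nonneg.2 s2)
        linarith
      have c5 : exp L * exp (ε / 4 * L) ≤ exp ((A σ * (1 - σ) + ε / 2) * L) := by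
        rw [← exp_add]
        exact exp_le_exp.2 (by nlinarith)
      have c6 : exp L * 2 ≤ exp L * exp (ε / 4 * L) :=
        mul_le_mul_of_nonneg_left (by linarith) (exp_pos L).le
      linarith
    · linarith [h.2.2.2.1]
  have z1 : ∀ ρ ∈ S, riemannZeta ρ = 0 → Zr σ L ρ := fun ρ h e => by
    obtain ⟨a, b, c⟩ := hS ρ h
    refine ⟨e, a, ?_, b, c⟩
    by_contra g
    exact riemannZeta_ne_zero_of_one_le_re (not_le.1 g).le e
  have e1 : ∑ ρ ∈ S, od ρ = ∑ ρ ∈ S with riemannZeta ρ = 0, od ρ := by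
    refine (Finset.sum_filter_of_ne fun ρ h g => ?_).symm
    by_contra g'
    exact g (od_zero (by linarith [(hS ρ h).2.1] : 0 < ρ.im).ne' g')
  rw [e1, ← Finset.sum_fiberwise_of_maps_to (t := B) (g := fun ρ : ℂ => ⌊ρ.im⌋)
    fun ρ h => hZ ρ (z1 ρ (mem_filter.1 h).1 (mem_filter.1 h).2)]
  refine (Finset.sum_le_card_nsmul _ _ (C * L) fun t _ => ?_).trans ?_
  · rcases ({ρ ∈ {ρ ∈ S | riemannZeta ρ = 0} | ⌊ρ.im⌋ = t} : Finset ℂ).eq_empty_or_nonempty with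
      g | ⟨ρ0, g⟩
    · rw [g, Finset.sum_empty]
      exact mul_nonneg C0.le (by linarith)
    obtain ⟨g1, g2⟩ := mem_filter.1 g
    obtain ⟨-, g3, g4⟩ := hS ρ0 (mem_filter.1 g1).1
    have t1 : (t : ℝ) ≤ ρ0.im := g2 ▸ Int.floor_le ρ0.im
    have t2 : ρ0.im < (t : ℝ) + 1 := g2 ▸ Int.lt_floor_add_one ρ0.im
    refine (hC t _ (by linarith) fun ρ h => ?_).trans (mul_le_mul_of_nonneg_left ?_ C0.le)
    · obtain ⟨k1, k2⟩ := mem_filter.1 h
      obtain ⟨-, z2, z3, -⟩ := z1 ρ (mem_filter.1 k1).1 (mem_filter.1 k1).2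
      have t3 : (t : ℝ) ≤ ρ.im := k2 ▸ Int.floor_le ρ.im
      have t4 : ρ.im < (t : ℝ) + 1 := k2 ▸ Int.lt_floor_add_one ρ.im
      exact ⟨by linarith, z3, abs_le.2 ⟨by linarith, by linarith⟩⟩
    · rw [Real.log_le_iff_le_exp (by linarith)]
      linarith
  · rw [nsmul_eq_mul]
    refine (mul_le_mul hB h2 (mul_nonneg C0.le (by linarith)) (exp_pos _).le).trans (le_of_eq ?_)
    rw [← exp_add]
    exact congrArg exp (by ring)

end Pool.Agent.MP_71ac24_nt.ZD
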