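import Pool.Agent.MP_71ac24_nt.ZD.Basic

namespace Pool.Agent.MP_71ac24_nt.ZD
open Finset Real Filter
open Pool.Agent.MP_71ac24_nt.H14 (ei ei_add norm_ei ei_zero conj_ei norm_ei_sub)
open Pool.Agent.MP_71ac24_nt Pool.Agent.MP_a404e6_nt.W
open Pool.Agent.MP_2033ac_nt.PN (mz ZA_s)

theorem tay_rem {x : ℂ} (hx : ‖x‖ ≤ 1 / 10) (N : ℕ) :
    ‖Complex.exp x - ∑ m ∈ range N, x ^ m / m.factorial‖ ≤ 2 / 10 ^ N := by
  have h1 : (1 : ℝ) ≤ (N.succ : ℕ) := by exact_mod_cast Nat.succ_pos N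
  refine (Complex.exp_bound' ((div_le_self (norm_nonneg _) h1).trans (by linarith))).trans ?_
  have h2 : (1 : ℝ) ≤ (N.factorial : ℕ) := by exact_mod_cast N.factorial_pos
  have h3 : ‖x‖ ^ N ≤ (1 / 10) ^ N := pow_le_pow_left₀ (norm_nonneg _) hx N
  have h4 := div_le_self (pow_nonneg (norm_nonneg x) N) h2
  rw [one_div_pow] at h3
  rw [show (2 : ℝ) / 10 ^ N = 1 / 10 ^ N * 2 by ring]
  linarith

theorem tay_split (f : AF) (y K : ℝ) (hK : K ≠ 0) (N M : ℕ) (hM : ∀ n, M < n → f n = 0)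
    (ρ : ℂ) (τ : ℝ) : Dc f ρ = Complex.exp (-(ρ + Complex.I * τ) * y) *
      (∑ k ∈ range N, (-(ρ + Complex.I * τ) * K) ^ k / k.factorial * Dp (tw f y K k) τ +
        ∑ n ∈ Icc 1 M, f n * ei (τ * Real.log n) *
          (Complex.exp (-(ρ + Complex.I * τ) * ((Real.log n - y : ℝ) : ℂ)) -
            ∑ k ∈ range N, (-(ρ + Complex.I * τ) * ((Real.log n - y : ℝ) : ℂ)) ^ k /
              k.factorial)) := by
  have hK' : (K : ℂ) ≠ 0 := by exact_mod_cast hK
  have e1 : ∀ k, Dp (tw f y K k) τ =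
      ∑ n ∈ Icc 1 M, ((tw f y K k n : ℝ) : ℂ) * ei (τ * Real.log n) := fun k =>
    Dp_eq (fun n hn => by rw [tw_apply, hM n hn, zero_mul]) τ
  simp only [e1, mul_sum]
  rw [sum_comm, ← sum_add_distrib, Dc_eq hM, mul_sum]
  refine sum_congr rfl fun n _ => ?_
  have e2 : ∑ k ∈ range N, (-(ρ + Complex.I * τ) * K) ^ k / k.factorial *
      (((tw f y K k n : ℝ) : ℂ) * ei (τ * Real.log n)) = f n * ei (τ * Real.log n) *
      ∑ k ∈ range N, (-(ρ + Complex.I * τ) * ((Real.log n - y : ℝ) : ℂ)) ^ k / k.factorial := by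
    rw [mul_sum]
    refine sum_congr rfl fun k _ => ?_
    have e3 : -(ρ + Complex.I * τ) * ((Real.log n - y : ℝ) : ℂ) =
        (-(ρ + Complex.I * τ) * K) * (((Real.log n - y) / K : ℝ) : ℂ) := by
      rw [Complex.ofReal_div]; field_simp
    rw [e3, mul_pow (-(ρ + Complex.I * τ) * K), tw_apply, Complex.ofReal_mul, Complex.ofReal_pow]
    ring
  have e4 : Complex.exp (-ρ * Real.log n) = Complex.exp (-(ρ + Complex.I * τ) * y) *
      (ei (τ * Real.log n) * Complex.exp (-(ρ + Complex.I * τ) * ((Real.log n - y : ℝ) : ℂ))) := by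
    rw [ei, ← Complex.exp_add, ← Complex.exp_add, Complex.ofReal_sub, Complex.ofReal_mul]
    congr 1
    ring
  rw [e2, e4]
  ring

theorem tay_row : TAY_s := by
  intro f y K V N ρ hB hS hy hK hV h0 h1 hN hE hD
  by_contra hc
  push Not at hc
  set τ : ℝ := ((-⌊ρ.im⌋ : ℤ) : ℝ) with hτ
  set w : ℂ := ρ + Complex.I * τ with hw
  have wre : w.re = ρ.re := by simp [hw]
  have wim : w.im = ρ.im + τ := by simp [hw]
  have wn : ‖-w‖ ≤ 2 := by
    have a1 := Int.floor_le ρ.im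
    have a2 := Int.lt_floor_add_one ρ.im
    have a3 : τ = -(⌊ρ.im⌋ : ℝ) := by rw [hτ, Int.cast_neg]
    have a4 := Complex.norm_le_abs_re_add_abs_im w
    rw [wre, wim, abs_of_nonneg h0, abs_of_nonneg (by linarith)] at a4
    rw [norm_neg]
    linarith
  have hsp := tay_split f y K (by linarith) N _ (fun _ => hS.zero) ρ τ
  rw [← hw] at hsp
  have n0 : ‖Complex.exp (-w * y)‖ = exp (-(ρ.re * y)) := by
    rw [Complex.norm_exp, Complex.re_mul_ofReal, Complex.neg_re, wre, neg_mul]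
  have hW : 0 < V * exp (ρ.re * y) / (4 * exp (2 * K)) := by positivity
  have n1 : ‖∑ k ∈ range N, (-w * K) ^ k / k.factorial * Dp (tw f y K k) τ‖ ≤
      exp (2 * K) * (V * exp (ρ.re * y) / (4 * exp (2 * K))) := by
    refine (norm_sum_le_of_le _ (n := fun k => (2 * K) ^ k / k.factorial *
      (V * exp (ρ.re * y) / (4 * exp (2 * K)))) fun k hk => ?_).trans ?_
    · rw [norm_mul, norm_div, norm_pow, norm_mul, Complex.norm_real, Complex.norm_natCast,
        Real.norm_eq_abs, abs_of_nonneg (by linarith : 0 ≤ K)]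
      refine mul_le_mul ?_ (hc k (mem_range.1 hk)).le (norm_nonneg _) (by positivity)
      gcongr
    · rw [← sum_mul]
      exact mul_le_mul_of_nonneg_right (Real.sum_le_exp_of_nonneg (by linarith) N) hW.le
  have n2 : ‖∑ n ∈ Icc 1 ⌊exp (y + 1 / 20)⌋₊, f n * ei (τ * Real.log n) *
      (Complex.exp (-w * ((Real.log n - y : ℝ) : ℂ)) -
        ∑ k ∈ range N, (-w * ((Real.log n - y : ℝ) : ℂ)) ^ k / k.factorial)‖ ≤ V / 2 := by
    refine (norm_sum_le_of_le _ (n := fun _ => 2 / 10 ^ N) fun n _ => ?_).trans ?_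
    · by_cases g : f n = 0
      · simp only [g, Complex.ofReal_zero, zero_mul, norm_zero]; positivity
      obtain ⟨b1, b2⟩ := hS n g
      rw [norm_mul, norm_mul, norm_ei, mul_one, Complex.norm_real, Real.norm_eq_abs]
      refine (mul_le_of_le_one_left (norm_nonneg _) (hB n)).trans (tay_rem ?_ N)
      rw [norm_mul, Complex.norm_real, Real.norm_eq_abs, abs_of_nonneg (by linarith)]
      calc ‖-w‖ * (Real.log n - y) ≤ 2 * (1 / 20) :=
            mul_le_mul wn (by linarith) (by linarith) (by norm_num)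
        _ = 1 / 10 := by norm_num
    · rw [sum_const, Nat.card_Icc, Nat.add_sub_cancel, nsmul_eq_mul]
      have c1 := Nat.floor_le (exp_pos (y + 1 / 20)).le
      rw [← mul_div_assoc, div_le_iff₀ (by positivity)]
      linarith
  have hE1 : exp (-(ρ.re * y)) ≤ 1 := exp_le_one_iff.2 (neg_nonpos.2 (mul_nonneg h0 hy))
  have hE2 : exp (-(ρ.re * y)) * (exp (2 * K) * (V * exp (ρ.re * y) / (4 * exp (2 * K)))) =
      V / 4 := by
    rw [exp_neg]; field_simp
  rw [hsp, norm_mul, n0] at hD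
  have n3 := mul_le_mul_of_nonneg_left ((norm_add_le _ _).trans (add_le_add n1 n2))
    (exp_pos (-(ρ.re * y))).le
  rw [mul_add, hE2] at n3
  have n4 : exp (-(ρ.re * y)) * (V / 2) ≤ V / 2 := mul_le_of_le_one_left (by linarith) hE1
  linarith

end Pool.Agent.MP_71ac24_nt.ZD
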