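import Pool.Agent.MP_71ac24_nt.ZD.Basic

namespace Pool.Agent.MP_71ac24_nt.ZD
open Finset Real Filter
open Pool.Agent.MP_71ac24_nt.H14 (ei ei_add norm_ei ei_zero conj_ei norm_ei_sub)
open Pool.Agent.MP_71ac24_nt Pool.Agent.MP_a404e6_nt.W
open Pool.Agent.MP_2033ac_nt.PN (mz ZA_s)

theorem zpm_sum {k : ℕ} (hk : 1 < k) : Summable fun u : ℤ => 1 / (1 + |(u : ℝ)|) ^ k := by
  have h : Summable fun n : ℕ => 1 / (1 + (n : ℝ)) ^ k := by
    have := (summable_nat_add_iff 1).2 (Real.summable_one_div_nat_pow.2 hk)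
    refine this.congr fun n => ?_
    push_cast
    rw [add_comm]
  refine Summable.of_nat_of_neg ?_ ?_
  · simpa using h
  · simpa using h

theorem zpm_sm {c : ℤ → ℂ} {C : ℝ} (hc : ∀ u : ℤ, ‖c u‖ ≤ C * (1 / (1 + |(u : ℝ)|) ^ 8)) (v : ℝ) :
    Summable fun u : ℤ => ‖c u * ei (u * v)‖ :=
  Summable.of_nonneg_of_le (fun _ => norm_nonneg _)
    (fun u => by rw [norm_mul, norm_ei, mul_one]; exact hc u)
    ((zpm_sum (by norm_num : 1 < 8)).mul_left C)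

theorem zpm_tail {c : ℤ → ℂ} {C : ℝ} (C0 : 0 ≤ C)
    (hc : ∀ u : ℤ, ‖c u‖ ≤ C * (1 / (1 + |(u : ℝ)|) ^ 8)) (v : ℝ) {a : ℂ}
    (ha : HasSum (fun u : ℤ => c u * ei (u * v)) a) {U : ℕ} (hU : 1 ≤ U) :
    ‖a - ∑ u ∈ Icc (-(U : ℤ)) U, c u * ei (u * v)‖ ≤
      C * (∑' u : ℤ, 1 / (1 + |(u : ℝ)|) ^ 2) / (U : ℝ) ^ 6 := by
  have U0 : (0 : ℝ) < U := by exact_mod_cast hU
  have h1 : HasSum (fun u : ℤ => if u ∈ Icc (-(U : ℤ)) U then c u * ei (u * v) else 0)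
      (∑ u ∈ Icc (-(U : ℤ)) U, c u * ei (u * v)) := by
    have := hasSum_sum_of_ne_finset_zero (L := SummationFilter.unconditional ℤ)
      (f := fun u : ℤ => if u ∈ Icc (-(U : ℤ)) U then c u * ei (u * v) else 0)
      (s := Icc (-(U : ℤ)) U) fun b hb => if_neg hb
    rwa [sum_congr rfl fun u hu => if_pos hu] at this
  have h2 := ha.sub h1
  have h3 := ((zpm_sum (by norm_num : 1 < 2)).hasSum.mul_left C).div_const ((U : ℝ) ^ 6)
  rw [← h2.tsum_eq]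
  refine tsum_of_norm_bounded h3 fun u => ?_
  split_ifs with h
  · rw [sub_self, norm_zero]; positivity
  · rw [sub_zero, norm_mul, norm_ei, mul_one]
    refine (hc u).trans ?_
    have h4 : (U : ℝ) ≤ |(u : ℝ)| := by
      rw [mem_Icc] at h
      exact_mod_cast (le_abs.2 (by omega) : (U : ℤ) ≤ |u|)
    rw [mul_div_assoc, div_div]
    refine mul_le_mul_of_nonneg_left (one_div_le_one_div_of_le (by positivity) ?_) C0
    rw [show (8 : ℕ) = 2 + 6 from rfl, pow_add]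
    gcongr
    linarith

theorem zpm_fs (φ : ℝ → ℝ) (hφ : ContDiff ℝ (⊤ : ℕ∞) φ) (h0 : ∀ v, v ≤ 0 ∨ 2 ≤ v → φ v = 0)
    {σ : ℝ} (s0 : 0 < σ) (s1 : σ ≤ 1) : ∃ C : ℝ, 0 < C ∧ ∃ c : ℤ → ℂ,
      (∀ u : ℤ, ‖c u‖ ≤ C * (1 / (1 + |(u : ℝ)|) ^ 8)) ∧
        ∀ v : ℝ, |v| ≤ 3 → HasSum (fun u : ℤ => c u * ei (u * v)) (φ (v / σ) : ℂ) := by
  obtain ⟨C, C0, c, hc, H⟩ := fs φ hφ h0 6
  have hb : ∀ u : ℤ, ‖(σ : ℂ) * c (σ * u)‖ ≤ C / σ ^ 8 * (1 / (1 + |(u : ℝ)|) ^ 8) := fun u => by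
    rw [norm_mul, Complex.norm_real, norm_of_nonneg s0.le]
    refine (mul_le_of_le_one_left (norm_nonneg _) s1).trans ((hc _).trans ?_)
    rw [div_mul_div_comm, mul_one, ← mul_pow, abs_mul, abs_of_pos s0]
    have := abs_nonneg (u : ℝ)
    gcongr
    nlinarith
  refine ⟨C / σ ^ 8, by positivity, fun u => σ * c (σ * u), hb, fun v hv => ?_⟩
  have hs := (zpm_sm hb v).of_norm.hasSum
  obtain ⟨S, hS⟩ : ∃ S, S = ∑' u : ℤ, 1 / (1 + |(u : ℝ)|) ^ 2 := ⟨_, rfl⟩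
  have S0 : 0 ≤ S := hS ▸ tsum_nonneg fun _ => by positivity
  have key : ‖(φ (v / σ) : ℂ) - ∑' u : ℤ, (σ : ℂ) * c (σ * u) * ei (u * v)‖ ≤ 0 := by
    refine ge_of_tendsto (tendsto_const_div_atTop_nhds_zero_nat (C / σ ^ 7 + C / σ ^ 8 * S)) ?_
    filter_upwards [eventually_ge_atTop 1] with U hU
    have U1 : (1 : ℝ) ≤ U := by exact_mod_cast hU
    have t1 := H σ v U s0 s1 hv hU
    have t2 := zpm_tail (by positivity) hb v hs hU
    rw [← hS, norm_sub_rev] at t2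
    refine (norm_sub_le_norm_sub_add_norm_sub _ _ _).trans ((add_le_add t1 t2).trans ?_)
    rw [add_div, mul_pow, ← div_div]
    gcongr
    · exact le_self_pow₀ U1 (by norm_num)
    · exact le_self_pow₀ U1 (by norm_num)
  rw [norm_le_zero_iff, sub_eq_zero] at key
  rw [key]
  exact hs

theorem zpm_w (u s : ℝ) : 1 / (1 + |s|) ^ 8 * (1 / (1 + |u - s|) ^ 8) ≤
    2 ^ 8 * (1 / (1 + |u|) ^ 8) * (1 / (1 + |s|) ^ 8 + 1 / (1 + |u - s|) ^ 8) := by
  have k : ∀ a : ℝ, |u| ≤ 2 * |a| → 1 / (1 + |a|) ^ 8 ≤ 2 ^ 8 * (1 / (1 + |u|) ^ 8) := fun a h => by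
    rw [mul_one_div, div_le_div_iff₀ (by positivity) (by positivity), one_mul, ← mul_pow]
    gcongr
    linarith
  have h := abs_add_le s (u - s)
  rw [add_sub_cancel] at h
  have p1 : 0 ≤ 1 / (1 + |s|) ^ 8 := by positivity
  have p2 : 0 ≤ 1 / (1 + |u - s|) ^ 8 := by positivity
  have p3 : 0 ≤ 2 ^ 8 * (1 / (1 + |u|) ^ 8) := by positivity
  rcases le_total |s| |u - s| with g | g
  · have := mul_le_mul_of_nonneg_left (k (u - s) (by linarith)) p1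
    nlinarith [mul_nonneg p3 p2]
  · have := mul_le_mul_of_nonneg_right (k s (by linarith)) p2
    nlinarith [mul_nonneg p3 p1]

theorem zpm_mul {c d : ℤ → ℂ} {C D : ℝ} (C0 : 0 ≤ C) (D0 : 0 ≤ D)
    (hc : ∀ u : ℤ, ‖c u‖ ≤ C * (1 / (1 + |(u : ℝ)|) ^ 8))
    (hd : ∀ u : ℤ, ‖d u‖ ≤ D * (1 / (1 + |(u : ℝ)|) ^ 8)) : ∃ e : ℤ → ℂ,
      (∀ u : ℤ, ‖e u‖ ≤ C * (2 ^ 9 * D * ∑' s : ℤ, 1 / (1 + |(s : ℝ)|) ^ 8) *
        (1 / (1 + |(u : ℝ)|) ^ 8)) ∧
      ∀ v : ℝ, HasSum (fun u : ℤ => e u * ei (u * v))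
        ((∑' u : ℤ, c u * ei (u * v)) * ∑' u : ℤ, d u * ei (u * v)) := by
  have w := (zpm_sum (by norm_num : 1 < 8)).hasSum
  have bd : ∀ u s : ℤ, ‖c s * d (u - s)‖ ≤ C * D * (2 ^ 8 * (1 / (1 + |(u : ℝ)|) ^ 8)) *
      (1 / (1 + |(s : ℝ)|) ^ 8 + 1 / (1 + |((u - s : ℤ) : ℝ)|) ^ 8) := fun u s => by
    rw [norm_mul]
    refine (mul_le_mul (hc s) (hd (u - s)) (norm_nonneg _) (by positivity)).trans ?_
    rw [mul_mul_mul_comm, mul_assoc (C * D)]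
    push_cast
    exact mul_le_mul_of_nonneg_left (zpm_w u s) (mul_nonneg C0 D0)
  have hs : ∀ u : ℤ, HasSum (fun s : ℤ => C * D * (2 ^ 8 * (1 / (1 + |(u : ℝ)|) ^ 8)) *
      (1 / (1 + |(s : ℝ)|) ^ 8 + 1 / (1 + |((u - s : ℤ) : ℝ)|) ^ 8))
      (C * D * (2 ^ 8 * (1 / (1 + |(u : ℝ)|) ^ 8)) *
        ((∑' s : ℤ, 1 / (1 + |(s : ℝ)|) ^ 8) + ∑' s : ℤ, 1 / (1 + |(s : ℝ)|) ^ 8)) := fun u =>
    (w.add ((Equiv.subLeft u).hasSum_iff.2 w)).mul_left _
  refine ⟨fun u => ∑' s : ℤ, c s * d (u - s), fun u => ?_, fun v => ?_⟩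
  · refine (tsum_of_norm_bounded (hs u) (bd u)).trans (le_of_eq ?_)
    ring
  · have h1 := (summable_mul_of_summable_norm (zpm_sm hc v) (zpm_sm hd v)).hasSum
    rw [← tsum_mul_tsum_of_summable_norm (zpm_sm hc v) (zpm_sm hd v)] at h1
    let E : ℤ × ℤ ≃ ℤ × ℤ :=
      ⟨fun x => (x.2, x.1 - x.2), fun x => (x.1 + x.2, x.1), fun x => by simp, fun x => by simp⟩
    refine (E.hasSum_iff.2 h1).prod_fiberwise fun u => ?_
    have h2 : Summable fun s : ℤ => c s * d (u - s) := .of_norm_bounded (hs u).summable (bd u)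
    have h3 := h2.hasSum.mul_right (ei (u * v))
    have e : (fun s : ℤ => c s * d (u - s) * ei (u * v)) = fun s : ℤ =>
        c s * ei (s * v) * (d (u - s) * ei (((u - s : ℤ) : ℝ) * v)) := by
      funext s
      rw [mul_mul_mul_comm, ← ei_add]
      congr 2
      push_cast
      ring
    rw [e] at h3
    exact h3

theorem zpm_row : ZPM_s := by
  obtain ⟨C, C0, c, hc, H⟩ := zpm_fs ps ps_smooth (fun _ => ps_zero) (σ := 1 / 40) (by norm_num)
    (by norm_num)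
  obtain ⟨D, D0, d, hd, G⟩ := zpm_fs
    (fun s => (s - 1) * smoothTransition s * smoothTransition (4 - 2 * s))
    (((contDiff_id.sub contDiff_const).mul smoothTransition.contDiff).mul
      (smoothTransition.contDiff.comp (contDiff_const.sub (contDiff_const.mul contDiff_id))))
    (fun v h => by
      rcases h with h | h
      · rw [smoothTransition.zero_of_nonpos h, mul_zero, zero_mul]
      · rw [smoothTransition.zero_of_nonpos (by linarith : 4 - 2 * v ≤ 0), mul_zero])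
    (σ := 1) one_pos le_rfl
  have hd' : ∀ u : ℤ, ‖d u * ei u‖ ≤ D * (1 / (1 + |(u : ℝ)|) ^ 8) := fun u => by
    rw [norm_mul, norm_ei, mul_one]; exact hd u
  have G' : ∀ v : ℝ, 0 ≤ v → v ≤ 1 / 20 → ∑' u : ℤ, d u * ei u * ei (u * v) = v := fun v v0 v1 => by
    have h := (G (1 + v) (abs_le.2 ⟨by linarith, by linarith⟩)).tsum_eq
    rw [div_one, smoothTransition.one_of_one_le (by linarith : 1 ≤ 1 + v),
      smoothTransition.one_of_one_le (by linarith : 1 ≤ 4 - 2 * (1 + v)), mul_one, mul_one,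
      add_sub_cancel_left] at h
    rw [← h]
    refine tsum_congr fun u => ?_
    rw [mul_add, mul_one, ei_add, mul_assoc]
  obtain ⟨S, hS⟩ : ∃ S, S = ∑' s : ℤ, 1 / (1 + |(s : ℝ)|) ^ 8 := ⟨_, rfl⟩
  obtain ⟨T, hT⟩ : ∃ T, T = ∑' s : ℤ, 1 / (1 + |(s : ℝ)|) ^ 2 := ⟨_, rfl⟩
  have S0 : 0 ≤ S := hS ▸ tsum_nonneg fun _ => by positivity
  have T0 : 0 ≤ T := hT ▸ tsum_nonneg fun _ => by positivity
  obtain ⟨K, hK⟩ : ∃ K, K = 2 ^ 9 * D * S + 1 := ⟨_, rfl⟩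
  have K1 : 1 ≤ K := by rw [hK]; exact le_add_of_nonneg_left (by positivity)
  have K0 : 0 < K := by linarith
  have ind : ∀ k : ℕ, ∃ e : ℤ → ℂ, (∀ u : ℤ, ‖e u‖ ≤ C * (1 / (1 + |(u : ℝ)|) ^ 8)) ∧
      ∀ v : ℝ, |v| ≤ 3 →
        HasSum (fun u : ℤ => e u * ei (u * v)) ((ps (40 * v) * (v / K) ^ k : ℝ) : ℂ) := by
    intro k
    induction k with
    | zero =>
      refine ⟨c, hc, fun v hv => ?_⟩
      have := H v hv
      rwa [show v / (1 / 40) = 40 * v by ring, ← mul_one (ps (40 * v)), ← pow_zero (v / K)] at this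
    | succ k ih =>
      obtain ⟨e, he, E⟩ := ih
      obtain ⟨g, hg, F⟩ := zpm_mul C0.le D0.le he hd'
      refine ⟨fun u => ((1 / K : ℝ) : ℂ) * g u, fun u => ?_, fun v hv => ?_⟩
      · rw [norm_mul, Complex.norm_real, norm_of_nonneg (by positivity), one_div_mul_eq_div,
          div_le_iff₀ K0]
        refine (hg u).trans ?_
        rw [← hS, mul_right_comm]
        exact mul_le_mul_of_nonneg_left (by linarith) (by positivity)
      · have h := (F v).mul_left ((1 / K : ℝ) : ℂ)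
        rw [(E v hv).tsum_eq] at h
        simp only [← mul_assoc] at h
        have e2 : ((1 / K : ℝ) : ℂ) * ((ps (40 * v) * (v / K) ^ k : ℝ) : ℂ) *
            ∑' u : ℤ, d u * ei u * ei (u * v) = ((ps (40 * v) * (v / K) ^ (k + 1) : ℝ) : ℂ) := by
          by_cases h0 : 40 * v ≤ 0 ∨ 2 ≤ 40 * v
          · rw [ps_zero h0]; simp
          · rw [not_or, not_le, not_le] at h0
            rw [G' v (by linarith) (by linarith), ← Complex.ofReal_mul, ← Complex.ofReal_mul]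
            congr 1
            ring
        rwa [e2] at h
  refine ⟨C * (T + 1), K, by positivity, K1, fun y k => ?_⟩
  obtain ⟨e, he, E⟩ := ind k
  refine ⟨e, fun u => (he u).trans ?_, fun U n hU hn hv => ?_⟩
  · rw [mul_one_div]
    gcongr
    exact le_mul_of_one_le_right C0.le (by linarith)
  · have h := zpm_tail C0.le he _ (E _ hv) hU
    have e1 : tw (pc ze y) y K k n = ps (40 * (Real.log n - y)) * ((Real.log n - y) / K) ^ k := by
      rw [tw_apply, pc_apply]; simp [hn]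
    rw [e1]
    refine h.trans ?_
    rw [← hT]
    gcongr
    linarith

end Pool.Agent.MP_71ac24_nt.ZD
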