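import Pool.Agent.MP_2033ac_nt.PN.RZA
import Pool.Agent.MP_71ac24_nt.ZD.RCNT
import Pool.Agent.MP_71ac24_nt.ZD.RABL
import Pool.Agent.MP_71ac24_nt.ZD.RMOL
import Pool.Agent.MP_71ac24_nt.ZD.RDET
import Pool.Agent.MP_71ac24_nt.ZD.RTAY
import Pool.Agent.MP_71ac24_nt.ZD.RCOV
import Pool.Agent.MP_71ac24_nt.ZD.RZPM
import Pool.Agent.MP_71ac24_nt.ZD.RLP
import Pool.Agent.MP_71ac24_nt.ZD.RLVA
import Pool.Agent.MP_71ac24_nt.ZD.RLVB
import Pool.Agent.MP_71ac24_nt.ZD.RLVZ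
import Pool.Agent.MP_71ac24_nt.ZD.RINT
import Pool.Agent.MP_71ac24_nt.ZD.RONE
import Pool.Agent.MP_71ac24_nt.ZD.RMAIN

namespace Pool.Agent.MP_71ac24_nt.ZD

theorem main_all : MAIN_s :=
  main_row (one_row cnt_row (int_row (det_row (abl_row Pool.Agent.MP_2033ac_nt.PN.za_row) mol_row)
    (cov_row tay_row) zpm_row lvz_row))

theorem adm_all : Adm AB := adm_AB (lva_row lp_row)

end Pool.Agent.MP_71ac24_nt.ZD
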