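import Pool.Agent.MP_71ac24_nt.ZD.Defs

/-! Zero density: basic lemmas. -/

namespace Pool.Agent.MP_71ac24_nt.ZD
open Finset Real Filter
open Pool.Agent.MP_71ac24_nt.H14 (ei)
open Pool.Agent.MP_a404e6_nt.W
open Pool.Agent.MP_2033ac_nt.PN (mz)

theorem AA_ge {σ : ℝ} (h : 1 / 2 ≤ σ) (h' : σ ≤ 1) : 2 ≤ AA σ := by
  refine le_min ?_ (le_max_of_le_right ?_)
  · rw [le_div_iff₀ (by linarith)]; linarith
  · rw [le_div_iff₀ (by linarith)]; linarith

theorem AA_le {σ : ℝ} (_h : 1 / 2 ≤ σ) (h' : σ ≤ 1) : AA σ ≤ 16 / 7 := by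
  rcases le_total σ (11 / 16) with g | g
  · refine min_le_of_left_le ?_
    rw [div_le_iff₀ (by linarith)]; linarith
  · refine min_le_of_right_le (max_le ?_ ?_)
    · rw [div_le_iff₀ (by linarith)]; linarith
    · rw [div_le_iff₀ (by linarith)]; linarith

theorem od_nonneg (ρ : ℂ) : 0 ≤ od ρ := Nat.cast_nonneg _

theorem od_zero {ρ : ℂ} (h : ρ.im ≠ 0) (h0 : riemannZeta ρ ≠ 0) : od ρ = 0 := by
  have h1 : ρ ≠ 1 := fun e => by simp [e] at h
  have a : AnalyticAt ℂ riemannZeta ρ :=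
    DifferentiableOn.analyticAt (s := {1}ᶜ)
      (fun z hz => (differentiableAt_riemannZeta hz).differentiableWithinAt)
      (isOpen_compl_singleton.mem_nhds h1)
  simp [od, analyticOrderNatAt, a.analyticOrderAt_eq_zero.2 h0]

theorem cnt_anti (T : ℕ) (F : ℤ → ℝ) {V W : ℝ} (h : V ≤ W) : cnt T F W ≤ cnt T F V := by
  unfold cnt
  exact_mod_cast card_le_card fun t ht =>
    mem_filter.2 ⟨(mem_filter.1 ht).1, h.trans (mem_filter.1 ht).2⟩

theorem tw_apply (f : AF) (y K : ℝ) (k n : ℕ) :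
    tw f y K k n = f n * ((Real.log n - y) / K) ^ k := rfl

theorem tw_sp {f : AF} {a b : ℝ} (h : Sp f a b) (y K : ℝ) (k : ℕ) : Sp (tw f y K k) a b :=
  fun n hn => h n (left_ne_zero_of_mul hn)

theorem tw_bd {f : AF} {y K : ℝ} (hB : Bd f 1) (h : Sp f y (y + 1 / 20)) (hK : 1 ≤ K) (k : ℕ) :
    Bd (tw f y K k) 1 := fun n => by
  by_cases g : f n = 0
  · simp [tw_apply, g]
  obtain ⟨h1, h2⟩ := h n g
  rw [tw_apply, abs_mul, abs_pow]
  refine mul_le_one₀ (hB n) (by positivity) (pow_le_one₀ (abs_nonneg _) ?_)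
  rw [abs_div, abs_of_nonneg (sub_nonneg.2 h1), abs_of_pos (by linarith), div_le_one (by linarith)]
  linarith

theorem ze_bd : Bd ze 1 := fun n => by
  rcases eq_or_ne n 0 with rfl | h
  · simp
  · simp [h]

theorem Dc_eq {f : AF} {N : ℕ} (h : ∀ n, N < n → f n = 0) (s : ℂ) :
    Dc f s = ∑ n ∈ Icc 1 N, (f n : ℂ) * Complex.exp (-s * Real.log n) := by
  refine tsum_eq_sum fun n hn => ?_
  rcases Nat.eq_zero_or_pos n with rfl | n0
  · simp
  · rw [h n (by rw [mem_Icc] at hn; omega)]; simp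

theorem Dc_one (s : ℂ) : Dc 1 s = 1 := by
  rw [Dc_eq (N := 1) fun n hn => by simp [hn.ne']]
  simp

theorem Dc_smul (c : ℝ) (f : AF) (s : ℂ) : Dc (c • f) s = c * Dc f s := by
  simp only [Dc, ArithmeticFunction.smul_map, smul_eq_mul, Complex.ofReal_mul, mul_assoc]
  exact tsum_mul_left

theorem Dc_sum {ι : Type} (I : Finset ι) {f : ι → AF} {a b : ι → ℝ}
    (h : ∀ i ∈ I, Sp (f i) (a i) (b i)) (s : ℂ) : Dc (∑ i ∈ I, f i) s = ∑ i ∈ I, Dc (f i) s := by
  have k : ∀ i ∈ I, ∀ n, I.sup (fun i => ⌊exp (b i)⌋₊) < n → f i n = 0 := fun i hi n hn =>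
    (h i hi).zero ((le_sup (f := fun i => ⌊exp (b i)⌋₊) hi).trans_lt hn)
  rw [Dc_eq (N := I.sup fun i => ⌊exp (b i)⌋₊) fun n hn => by
      rw [af_sum]; exact sum_eq_zero fun i hi => k i hi n hn,
    sum_congr rfl fun i hi => Dc_eq (k i hi) s, sum_comm]
  refine sum_congr rfl fun n _ => ?_
  rw [af_sum, Complex.ofReal_sum, sum_mul]

theorem Dc_add {f g : AF} {a b a' b' : ℝ} (h : Sp f a b) (h' : Sp g a' b') (s : ℂ) :
    Dc (f + g) s = Dc f s + Dc g s := by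
  have k1 : ∀ n, max ⌊exp b⌋₊ ⌊exp b'⌋₊ < n → f n = 0 := fun n hn =>
    h.zero ((le_max_left _ _).trans_lt hn)
  have k2 : ∀ n, max ⌊exp b⌋₊ ⌊exp b'⌋₊ < n → g n = 0 := fun n hn =>
    h'.zero ((le_max_right _ _).trans_lt hn)
  rw [Dc_eq (N := max ⌊exp b⌋₊ ⌊exp b'⌋₊) fun n hn => by simp [k1 n hn, k2 n hn], Dc_eq k1,
    Dc_eq k2, ← sum_add_distrib]
  refine sum_congr rfl fun n _ => ?_
  simp [add_mul]

theorem Dc_mul {f g : AF} {a b a' b' : ℝ} (h : Sp f a b) (h' : Sp g a' b') (s : ℂ) :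
    Dc (f * g) s = Dc f s * Dc g s := by
  obtain ⟨M, hM⟩ : ∃ M : ℕ, ∀ n, M < n → f n = 0 := ⟨_, fun _ => h.zero⟩
  obtain ⟨N, hN⟩ : ∃ N : ℕ, ∀ n, N < n → g n = 0 := ⟨_, fun _ => h'.zero⟩
  have key : ∀ n : ℕ, (((f * g) n : ℝ) : ℂ) * Complex.exp (-s * Real.log n) =
      ∑ p ∈ Icc 1 M ×ˢ Icc 1 N with p.1 * p.2 = n,
        f p.1 * Complex.exp (-s * Real.log p.1) * (g p.2 * Complex.exp (-s * Real.log p.2)) :=
    fun n => by
    rw [ArithmeticFunction.mul_apply, Complex.ofReal_sum, sum_mul]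
    refine (sum_subset_zero_on_sdiff (fun p hp => ?_) (fun p hp => ?_) fun p hp => ?_).symm
    · simp only [mem_filter, mem_product, mem_Icc] at hp
      exact Nat.mem_divisorsAntidiagonal.2 ⟨hp.2, hp.2 ▸ mul_ne_zero (by omega) (by omega)⟩
    · obtain ⟨h1, h2⟩ := mem_sdiff.1 hp
      obtain ⟨e, n0⟩ := Nat.mem_divisorsAntidiagonal.1 h1
      have a1 := left_ne_zero_of_mul (e ▸ n0 : p.1 * p.2 ≠ 0)
      have a2 := right_ne_zero_of_mul (e ▸ n0 : p.1 * p.2 ≠ 0)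
      simp only [mem_filter, mem_product, mem_Icc] at h2
      rcases (by omega : M < p.1 ∨ N < p.2) with g | g
      · simp [hM _ g]
      · simp [hN _ g]
    · simp only [mem_filter, mem_product, mem_Icc] at hp
      rw [← hp.2, Nat.cast_mul, Real.log_mul (by exact_mod_cast (by omega : p.1 ≠ 0))
        (by exact_mod_cast (by omega : p.2 ≠ 0)), Complex.ofReal_add, mul_add, Complex.exp_add,
        Complex.ofReal_mul]
      ring
  rw [Dc_eq hM, Dc_eq hN, sum_mul_sum, ← sum_product', Dc,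
    tsum_eq_sum (s := range (M * N + 1)) fun n hn => ?_]
  · simp only [key]
    exact sum_fiberwise_of_maps_to (fun p hp => by
      simp only [mem_product, mem_Icc] at hp
      exact mem_range.2 (Nat.lt_succ_of_le (Nat.mul_le_mul hp.1.2 hp.2.2))) _
  · rw [key]
    refine sum_eq_zero fun p hp => absurd ?_ hn
    simp only [mem_filter, mem_product, mem_Icc] at hp
    exact mem_range.2 (Nat.lt_succ_of_le (hp.2 ▸ Nat.mul_le_mul hp.1.1.2 hp.1.2.2))

theorem Dc_le {f : AF} {a b B : ℝ} (h : Sp f a b) (hB : Bd f B) {s : ℂ} (hs : 0 ≤ s.re) :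
    ‖Dc f s‖ ≤ B * exp b := by
  rw [Dc_eq fun _ => h.zero]
  refine (norm_sum_le_of_le _ (n := fun _ => B) fun n _ => ?_).trans ?_
  · rw [norm_mul, Complex.norm_real, Complex.norm_exp]
    refine (mul_le_of_le_one_right (norm_nonneg _) (exp_le_one_iff.2 ?_)).trans (hB n)
    have := mul_nonneg hs (Real.log_natCast_nonneg n)
    rw [Complex.re_mul_ofReal, Complex.neg_re]
    linarith
  · rw [sum_const, Nat.card_Icc, Nat.add_sub_cancel, nsmul_eq_mul, mul_comm]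
    exact mul_le_mul_of_nonneg_left (Nat.floor_le (exp_pos b).le) ((abs_nonneg _).trans (hB 0))

theorem zs_apply {a b : ℕ} (h : a ≤ b) {n : ℕ} (hn : n ≠ 0) : zs a b n =
    smoothTransition (40 * Real.log n + 1 - a) - smoothTransition (40 * Real.log n + 1 - b) := by
  rw [zs, af_sum, ← ps_sum _ h]
  refine sum_congr rfl fun j _ => ?_
  rw [pc_apply, yj, show 40 * (Real.log n - ((j : ℝ) - 1) / 40) = 40 * Real.log n + 1 - j by ring]
  simp [hn]

end Pool.Agent.MP_71ac24_nt.ZD
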