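import Pool.Agent.MP_2033ac_nt.PN.DefsW

/-! Zero density: definitions and statements. -/

namespace Pool.Agent.MP_71ac24_nt.ZD
open Finset Real Filter
open Pool.Agent.MP_71ac24_nt.H14 (ei)
open Pool.Agent.MP_a404e6_nt.W
open Pool.Agent.MP_2033ac_nt.PN (mz)

/-- the density exponent -/
noncomputable def AA (σ : ℝ) : ℝ := min (3 / (2 - σ)) (max (24 / (5 + 8 * σ)) (6 / (2 + σ)))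

/-- the Dirichlet polynomial at a complex point -/
noncomputable def Dc (f : AF) (s : ℂ) : ℂ := ∑' n : ℕ, (f n : ℂ) * Complex.exp (-s * Real.log n)

/-- multiplication by a power of `(log n - y) / K` -/
noncomputable def tw (f : AF) (y K : ℝ) (k : ℕ) : AF :=
  ⟨fun n => f n * ((Real.log n - y) / K) ^ k, by simp⟩

/-- the left end of a piece -/
noncomputable def yj (j : ℕ) : ℝ := ((j : ℝ) - 1) / 40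

/-- a smooth block of the constant one -/
noncomputable def zs (a b : ℕ) : AF := ∑ j ∈ Ico a b, pc ze (yj j)

/-- the mollified block -/
noncomputable def E0 (δ L : ℝ) : AF := mz ⌊exp (δ * L)⌋₊ * zs 0 (⌈20 * L⌉₊ + 1) - 1

/-- the multiplicity -/
noncomputable def od (ρ : ℂ) : ℝ := analyticOrderNatAt riemannZeta ρ

/-- a zero in the dyadic block -/
def Zr (σ L : ℝ) (ρ : ℂ) : Prop :=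
  riemannZeta ρ = 0 ∧ σ ≤ ρ.re ∧ ρ.re ≤ 1 ∧ exp L / 2 ≤ ρ.im ∧ ρ.im ≤ exp L

def CNT_s : Prop := ∃ C : ℝ, 0 < C ∧ ∀ (u : ℝ) (S : Finset ℂ), 5 ≤ u →
  (∀ ρ ∈ S, 1 / 2 ≤ ρ.re ∧ ρ.re ≤ 1 ∧ |ρ.im - u| ≤ 1) → ∑ ρ ∈ S, od ρ ≤ C * Real.log u

def ABL_s : Prop := ∀ (η L : ℝ) (J : ℕ) (ρ : ℂ), 0 ≤ η → 1 ≤ L → 80 * L + 1 ≤ J →
  (J : ℝ) ≤ 80 * L + 2 → Zr (1 / 2 + η) L ρ → ‖Dc (zs 0 J) ρ‖ ≤ 20 * exp (-(2 * η * L))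

def MOL_s : Prop := ∀ δ e : ℝ, 0 < δ → δ ≤ 1 / 2 → 0 < e → ∀ᶠ L : ℝ in atTop,
  Bd (E0 δ L) (exp (e * L)) ∧ Sp (E0 δ L) (δ * L) ((1 / 2 + δ) * L + 1 / 20)

def DET_s : Prop := ∀ δ η e : ℝ, 0 < δ → δ ≤ η → δ ≤ 1 / 2 → 0 < e → ∀ᶠ L : ℝ in atTop,
  ∃ E : AF, Bd E 1 ∧ ∀ ρ : ℂ, Zr (1 / 2 + η) L ρ → ∃ j : ℕ, j < ⌈100 * L⌉₊ ∧
    ((δ * L - 1 ≤ yj j ∧ yj j ≤ (1 / 2 + δ) * L + 1 ∧ exp (-(e * L)) ≤ ‖Dc (pc E (yj j)) ρ‖) ∨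
      (L / 2 ≤ yj j ∧ yj j ≤ 2 * L + 1 ∧ exp (-(2 * δ * L)) ≤ ‖Dc (pc ze (yj j)) ρ‖))

def TAY_s : Prop := ∀ (f : AF) (y K V : ℝ) (N : ℕ) (ρ : ℂ), Bd f 1 → Sp f y (y + 1 / 20) →
  0 ≤ y → 1 ≤ K → 0 < V → 0 ≤ ρ.re → ρ.re ≤ 1 → 1 ≤ N → 4 * exp (y + 1 / 20) ≤ V * 10 ^ N →
    V ≤ ‖Dc f ρ‖ → ∃ k : ℕ, k < N ∧
      V * exp (ρ.re * y) / (4 * exp (2 * K)) ≤ ‖Dp (tw f y K k) ((-⌊ρ.im⌋ : ℤ) : ℝ)‖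

def COV_s : Prop := ∀ (F : ℕ → AF) (Q : ℕ → Prop) (J N U : ℕ) (K V σ R : ℝ),
  (∀ j, Bd (F j) 1) → (∀ j, Sp (F j) (yj j) (yj j + 1 / 20)) → 1 ≤ K → 0 < V → 0 ≤ σ → 0 ≤ R →
    1 ≤ N → (∀ j, Q j → 0 ≤ yj j ∧ 4 * exp (yj j + 1 / 20) ≤ V * 10 ^ N ∧ ∀ k : ℕ,
      cnt U (fun t => ‖Dp (tw (F j) (yj j) K k) t‖) (V * exp (σ * yj j) / (4 * exp (2 * K))) ≤ R) →
      ∃ B : Finset ℤ, (#B : ℝ) ≤ J * N * R ∧ ∀ (ρ : ℂ) (j : ℕ), j < J → Q j → σ ≤ ρ.re →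
        ρ.re ≤ 1 → ⌊ρ.im⌋ ∈ Icc (-(U : ℤ)) U → V ≤ ‖Dc (F j) ρ‖ → ⌊ρ.im⌋ ∈ B

def ZPM_s : Prop := ∃ C K : ℝ, 0 < C ∧ 1 ≤ K ∧ ∀ (y : ℝ) (k : ℕ), ZP C (tw (pc ze y) y K k) y

def LP_s : Prop := ∀ t P m σ r a e : ℝ, 0 ≤ e → 0 ≤ t → 1 / 2 ≤ σ → σ ≤ 1 → AA σ * t ≤ P →
  P / 3 ≤ m → m ≤ P / 2 → σ * m - e ≤ a → r + 2 * a ≤ e + max t m + m →
  (r + 2 * a ≤ e + 2 * m ∨ 2 * r + 8 * a ≤ 2 * e + t + 6 * m ∨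
    8 * r + 32 * a ≤ 8 * e + 8 * t + 19 * m ∨ 2 * r + 7 * a ≤ 2 * e + 2 * t + 4 * m) →
      r ≤ 5 * e + (1 - σ) * P

/-- the large values property with exponent `A` -/
def LVG (A : ℝ → ℝ) : Prop := ∀ κ ε : ℝ, 0 < κ → 0 < ε → ε ≤ 1 → ∃ e : ℝ, 0 < e ∧ e ≤ 1 ∧
  ∀ᶠ L : ℝ in atTop, ∀ (f : AF) (y σ : ℝ), Bd f 1 → Sp f y (y + 1 / 20) → κ * L ≤ y →
    y ≤ (1 / 2 + ε / 4) * L → 1 / 2 ≤ σ → σ ≤ 1 →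
      cnt ⌊exp L⌋₊ (fun t => ‖Dp f t‖) (exp (σ * y - e * L)) ≤ exp ((A σ * (1 - σ) + ε) * L)

/-- an admissible exponent -/
def Adm (A : ℝ → ℝ) : Prop := (∀ σ : ℝ, 1 / 2 ≤ σ → σ ≤ 1 → 2 ≤ A σ) ∧ LVG A

def LVA_s : Prop := LVG AA

def LVZ_s : Prop := ∀ C0 e : ℝ, 0 < e → ∀ᶠ L : ℝ in atTop, ∀ (f : AF) (y σ : ℝ), ZP C0 f y →
  Sp f y (y + 1 / 20) → L / 2 ≤ y → y ≤ 2 * L + 1 → 1 / 2 ≤ σ → σ ≤ 1 →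
    cnt ⌊exp L⌋₊ (fun t => ‖Dp f t‖) (exp (σ * y - e * L)) ≤ exp ((2 * (1 - σ) + 8 * e) * L)

def INT_s : Prop := ∀ A : ℝ → ℝ, Adm A → ∀ ε η : ℝ, 0 < ε → 0 < η → ∀ᶠ L : ℝ in atTop,
  ∀ σ : ℝ, 1 / 2 + η ≤ σ → σ ≤ 1 → ∃ B : Finset ℤ, (#B : ℝ) ≤ exp ((A σ * (1 - σ) + ε) * L) ∧
    ∀ ρ : ℂ, Zr σ L ρ → ⌊ρ.im⌋ ∈ B

def ONE_s : Prop := ∀ A : ℝ → ℝ, Adm A → ∀ ε : ℝ, 0 < ε → ∀ᶠ L : ℝ in atTop,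
  ∀ (σ : ℝ) (S : Finset ℂ), 1 / 2 ≤ σ → σ ≤ 1 →
    (∀ ρ ∈ S, σ ≤ ρ.re ∧ exp L / 2 ≤ ρ.im ∧ ρ.im ≤ exp L) →
    ∑ ρ ∈ S, od ρ ≤ exp ((A σ * (1 - σ) + ε) * L)

def MAIN_s : Prop := ∀ A : ℝ → ℝ, Adm A → ∀ ε : ℝ, 0 < ε → ∃ C : ℝ,
  ∀ (σ T : ℝ) (S : Finset ℂ), 1 / 2 ≤ σ → σ ≤ 1 → 1 ≤ T →
    (∀ ρ ∈ S, σ ≤ ρ.re ∧ 0 < ρ.im ∧ ρ.im ≤ T) →
    ∑ ρ ∈ S, od ρ ≤ C * T ^ (A σ * (1 - σ) + ε)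

end Pool.Agent.MP_71ac24_nt.ZD
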