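import Pool.Agent.MP_71ac24_nt.ZD.Basic

namespace Pool.Agent.MP_71ac24_nt.ZD
open Finset Real Filter
open Pool.Agent.MP_71ac24_nt.H14 (ei ei_add norm_ei ei_zero conj_ei norm_ei_sub)
open Pool.Agent.MP_71ac24_nt Pool.Agent.MP_a404e6_nt.W
open Pool.Agent.MP_2033ac_nt.PN (mz ZA_s)

-- helper lemmas of this row: prefix lvz_

theorem lvz_row : LVZ_s := by
  intro C0 e he
  obtain ⟨C, hC, h⟩ := lvz C0 e he
  filter_upwards [eventually_ge_atTop (100 : ℝ), ev_lin (2 * C) e he 0, eventually_ge_atTop (1 / e)]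
    with L hL hE hL2 f y σ hZ hS hy1 hy2 s1 s2
  rw [pow_zero, mul_one] at hE
  rw [div_le_iff₀ he] at hL2
  have hX1 : 1 ≤ exp L := one_le_exp (by linarith)
  set T : ℕ := ⌊exp L⌋₊ with hT
  have hT1 : 1 ≤ T := Nat.le_floor (by exact_mod_cast hX1)
  have hT1' : (1 : ℝ) ≤ T := by exact_mod_cast hT1
  have hT2 : (T : ℝ) ≤ exp L := Nat.floor_le (exp_pos _).le
  have hT3 : exp L / 2 ≤ T := by
    have := Nat.lt_floor_add_one (exp L)
    linarith
  have hT4 : exp y ≤ (T : ℝ) ^ 3 := by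
    refine le_trans ?_ (pow_le_pow_left₀ (by positivity) hT3 3)
    rw [div_pow, ← exp_nat_mul, le_div_iff₀ (by norm_num)]
    have h8 : (2 : ℝ) ^ 3 ≤ exp (L - 1) := by linarith [add_one_le_exp (L - 1)]
    calc _ ≤ exp (2 * L + 1) * exp (L - 1) := by gcongr
      _ = _ := by rw [← exp_add]; congr 1; push_cast; ring
  have h1 := h f y (exp (σ * y - e * L)) T hZ hS (by linarith) hT1
    (hT2.trans (exp_le_exp.2 (by linarith))) hT4 (exp_pos _)
  have h2 : (T : ℝ) ^ e ≤ exp (e * L) := by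
    rw [mul_comm, exp_mul]
    exact rpow_le_rpow (by positivity) hT2 he.le
  have h3 : exp y / exp (σ * y - e * L) ≤ exp ((2 * (1 - σ) + 4 * e) * L) := by
    rw [← exp_sub]
    refine exp_le_exp.2 ?_
    nlinarith [mul_nonneg (sub_nonneg.2 s2) (sub_nonneg.2 hy2)]
  have h4 : T * exp (2 * y) / exp (σ * y - e * L) ^ 4 ≤ exp ((2 * (1 - σ) + 4 * e) * L) := by
    rw [← exp_nat_mul, div_le_iff₀ (exp_pos _), ← exp_add]
    calc _ ≤ exp L * exp (2 * y) := by gcongr
      _ ≤ _ := by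
        rw [← exp_add]
        refine exp_le_exp.2 ?_
        push_cast
        nlinarith [mul_nonneg (sub_nonneg.2 s1) (sub_nonneg.2 hy1)]
  calc _ ≤ _ := h1
    _ ≤ C * exp (e * L) * (exp ((2 * (1 - σ) + 4 * e) * L) +
        exp ((2 * (1 - σ) + 4 * e) * L)) := by gcongr
    _ = 2 * C * exp (e * L) * exp ((2 * (1 - σ) + 4 * e) * L) := by ring
    _ ≤ exp (e * L) * exp (e * L) * exp ((2 * (1 - σ) + 4 * e) * L) := by gcongr
    _ ≤ _ := by
      rw [← exp_add, ← exp_add]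
      refine exp_le_exp.2 ?_
      nlinarith

end Pool.Agent.MP_71ac24_nt.ZD
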